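import Pool.Agent.Lib.MP_b197b4_ntC.CDefs

/-!
# Leaf CE: finite fields of definition
-/

set_option autoImplicit false

noncomputable section

namespace MPb197b4P

open Polynomial

/-- The fixed points of a power of Frobenius. -/
def fixF (p : ℕ) [Fact p.Prime] (k : Type) [Field k] [CharP k p] (n : ℕ) : Subfield k where
  carrier := {x | x ^ p ^ n = x}
  mul_mem' := by
    intro x y hx hy
    change (x * y) ^ p ^ n = x * y
    rw [mul_pow, hx, hy]
  one_mem' := one_pow _
  add_mem' := by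
    intro x y hx hy
    change (x + y) ^ p ^ n = x + y
    rw [add_pow_char_pow, hx, hy]
  zero_mem' := zero_pow (pow_ne_zero _ (Nat.Prime.ne_zero Fact.out))
  neg_mem' := by
    intro x hx
    change (-x) ^ p ^ n = -x
    have h0 : (0 : k) ^ p ^ n = 0 := zero_pow (pow_ne_zero _ (Nat.Prime.ne_zero Fact.out))
    rw [← zero_sub x, sub_pow_char_pow, hx, h0]
  inv_mem' := by
    intro x hx
    change (x⁻¹) ^ p ^ n = x⁻¹
    rw [inv_pow, hx]

theorem mem_fixF {p : ℕ} [Fact p.Prime] {k : Type} [Field k] [CharP k p] {n : ℕ} {x : k} :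
    x ∈ fixF p k n ↔ x ^ p ^ n = x := Iff.rfl

theorem fixF_eq (p : ℕ) [Fact p.Prime] (k : Type) [Field k] [CharP k p] {n : ℕ} (hn : n ≠ 0) :
    (fixF p k n : Set k) = (X ^ p ^ n - X : k[X]).rootSet k := by
  have hq : 1 < p ^ n := Nat.one_lt_pow hn (Nat.Prime.one_lt Fact.out)
  have h0 : (X ^ p ^ n - X : k[X]) ≠ 0 := FiniteField.X_pow_card_sub_X_ne_zero k hq
  ext x
  rw [SetLike.mem_coe, mem_fixF, mem_rootSet]
  simp [h0, sub_eq_zero]

theorem card_fixF (p : ℕ) [Fact p.Prime] (k : Type) [Field k] [CharP k p] [IsAlgClosed k] {n : ℕ}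
    (hn : n ≠ 0) : Nat.card (fixF p k n) = p ^ n := by
  classical
  have hq : 1 < p ^ n := Nat.one_lt_pow hn (Nat.Prime.one_lt Fact.out)
  have h1 : Nat.card (fixF p k n) = Nat.card ((X ^ p ^ n - X : k[X]).rootSet k) := by
    rw [← fixF_eq p k hn]
    rfl
  rw [h1, Nat.card_eq_fintype_card, card_rootSet_eq_natDegree]
  · exact FiniteField.X_pow_card_sub_X_natDegree_eq k hq
  · exact galois_poly_separable p _ (dvd_pow_self p hn)
  · exact IsAlgClosed.splits _

/-- A large finite field which contains a given finite set. Take the fixed field of the power `p ^ (2 μ)` of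
Frobenius. -/
theorem exists_field (p : ℕ) [Fact p.Prime] (k : Type) [Field k] [CharP k p] [IsAlgClosed k]
    (halg : ∀ a : k, ∃ m : ℕ, 0 < m ∧ a ^ p ^ m = a) (S : Set k) (hS : S.Finite) (N : ℕ) :
    ∃ (F : Type) (_ : Field F) (_ : Fintype F) (_ : Algebra F k) (μ : ℕ),
      Fintype.card F = p ^ (2 * μ) ∧ N < Fintype.card F ∧ ∀ a ∈ S, ∃ b : F, algebraMap F k b = a := by
  classical
  choose m hm hm' using halg
  have hit : ∀ (a : k) (t : ℕ), a ^ p ^ (m a * t) = a := by
    intro a t
    induction t with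
    | zero => rw [mul_zero, pow_zero, pow_one]
    | succ t ih => rw [mul_add, mul_one, pow_add, pow_mul, ih, hm' a]
  obtain ⟨μ, hμ⟩ : ∃ μ, μ = (∏ a ∈ hS.toFinset, m a) * (N + 1) := ⟨_, rfl⟩
  have hpos : 0 < ∏ a ∈ hS.toFinset, m a := Finset.prod_pos fun a _ => hm a
  have hμ1 : N + 1 ≤ μ := by
    rw [hμ]
    exact Nat.le_mul_of_pos_left _ hpos
  have hn : 2 * μ ≠ 0 := by omega
  have hfin : Finite (fixF p k (2 * μ)) := by
    have h1 : ((fixF p k (2 * μ) : Subfield k) : Set k).Finite := by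
      rw [fixF_eq p k hn]
      exact rootSet_finite _ _
    exact h1
  have hft : Fintype (fixF p k (2 * μ)) := Fintype.ofFinite _
  have hcard : Fintype.card (fixF p k (2 * μ)) = p ^ (2 * μ) := by
    rw [← Nat.card_eq_fintype_card, card_fixF p k hn]
  refine ⟨fixF p k (2 * μ), inferInstance, hft, inferInstance, μ, hcard, ?_, fun a ha => ?_⟩
  · rw [hcard]
    calc N < 2 * μ := by omega
      _ < p ^ (2 * μ) := Nat.lt_pow_self (Nat.Prime.one_lt Fact.out)
  · refine ⟨⟨a, ?_⟩, rfl⟩
    rw [mem_fixF]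
    obtain ⟨c, hc⟩ := Finset.dvd_prod_of_mem m (hS.mem_toFinset.2 ha)
    have h2 : 2 * μ = m a * (c * (N + 1) * 2) := by
      rw [hμ, hc]
      ring
    rw [h2]
    exact hit a _

theorem lift_gen {R R' : Type*} [Semiring R] [Semiring R'] (f : R →+* R') (q : R'[X])
    (h : ∀ i, ∃ b : R, f b = q.coeff i) : ∃ q' : R[X], q'.map f = q :=
  (mem_lifts q).1 ((lifts_iff_coeff_lifts q).2 h)

/-- The coefficients of polynomials in one and in three variables. -/
theorem lift_one {F k : Type} [Field F] [Field k] [Algebra F k] (q : k[X])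
    (h : ∀ i, ∃ b : F, algebraMap F k b = q.coeff i) : ∃ q' : F[X], q'.map (algebraMap F k) = q :=
  lift_gen (algebraMap F k) q h

theorem lift_three {F k : Type} [Field F] [Field k] [Algebra F k] (f : k[X][X][X])
    (h : ∀ i j l, ∃ b : F, algebraMap F k b = ((f.coeff i).coeff j).coeff l) :
    ∃ f' : F[X][X][X], f'.map (mapRingHom (mapRingHom (algebraMap F k))) = f :=
  lift_gen _ f fun i => lift_gen _ (f.coeff i) fun j => lift_gen _ ((f.coeff i).coeff j) (h i j)

theorem range_coeff_finite {R : Type*} [Semiring R] (q : R[X]) : (Set.range q.coeff).Finite := by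
  classical
  refine ((q.support.image q.coeff).finite_toSet.insert 0).subset ?_
  rintro _ ⟨i, rfl⟩
  by_cases hi : q.coeff i = 0
  · exact Or.inl hi
  · exact Or.inr (Finset.mem_coe.2 (Finset.mem_image.2 ⟨i, mem_support_iff.2 hi, rfl⟩))

/-- The sets of coefficients are finite. -/
theorem coeffs_finite {k : Type} [Field k] (f : k[X][X][X]) :
    {c | ∃ i j l, c = ((f.coeff i).coeff j).coeff l}.Finite := by
  refine ((range_coeff_finite f).biUnion fun g _ =>
    (range_coeff_finite g).biUnion fun h _ => range_coeff_finite h).subset ?_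
  rintro _ ⟨i, j, l, rfl⟩
  simp only [Set.mem_iUnion]
  exact ⟨f.coeff i, ⟨i, rfl⟩, (f.coeff i).coeff j, ⟨j, rfl⟩, l, rfl⟩

end MPb197b4P
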