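import Pool.Agent.Lib.MP_b197b4_ntC.CDefs

/-!
# Leaf CF, part of helper14
-/

set_option autoImplicit false

noncomputable section

namespace MPb197b4P

open Polynomial

/-- The value of the equation of the curve at a point. -/
theorem fib_ev {k : Type} [Field k] (f : k[X][X][X]) (κ : k) (α : k[X]) (a b : k) :
    ((fib f κ α).eval (C b)).eval a = ev3 f a b (α.eval a + κ * b) := by
  unfold fib ev3
  induction f using Polynomial.induction_on' with
  | add p q hp hq =>
    simp only [eval_add] at hp hq ⊢
    rw [hp, hq]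
  | monomial n g =>
    simp only [eval_monomial, eval_mul, eval_pow, eval_add, eval_C, eval_X]
    rw [add_comm (α.eval a)]

/-- A Bezout identity with a denominator in `x` only. -/
theorem CF_bezout {k : Type} [Field k] {F : k[X][X]} (hF : Irreducible F) (hd : F.natDegree ≠ 0)
    (h' : derivative F ≠ 0) : ∃ (A B : k[X][X]) (D : k[X]), D ≠ 0 ∧
      A * F + B * derivative F = C D := by
  have hprim : F.IsPrimitive := hF.isPrimitive hd
  have hirr : Irreducible (F.map (algebraMap k[X] (RatFunc k))) :=
    (hprim.irreducible_iff_irreducible_map_fraction_map (K := RatFunc k)).1 hF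
  have hinj : Function.Injective (algebraMap k[X] (RatFunc k)) :=
    FaithfulSMul.algebraMap_injective k[X] (RatFunc k)
  have hcop : IsCoprime (F.map (algebraMap k[X] (RatFunc k)))
      ((derivative F).map (algebraMap k[X] (RatFunc k))) := by
    rcases hirr.isCoprime_or_dvd ((derivative F).map (algebraMap k[X] (RatFunc k))) with h | h
    · exact h
    · exfalso
      have h1 := natDegree_le_of_dvd h (fun h0 => h' ((Polynomial.map_eq_zero_iff hinj).1 h0))
      rw [natDegree_map_eq_of_injective hinj, natDegree_map_eq_of_injective hinj] at h1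
      have h2 := natDegree_derivative_lt hd
      omega
  obtain ⟨u, v, huv⟩ := hcop
  obtain ⟨b, hbm, hb⟩ := IsLocalization.integerNormalization_spec (nonZeroDivisors k[X]) u
  obtain ⟨c, hcm, hc⟩ := IsLocalization.integerNormalization_spec (nonZeroDivisors k[X]) v
  set U := IsLocalization.integerNormalization (nonZeroDivisors k[X]) u with hU
  set V := IsLocalization.integerNormalization (nonZeroDivisors k[X]) v with hV
  refine ⟨C c * U, C b * V, b * c,
    mul_ne_zero (nonZeroDivisors.ne_zero hbm) (nonZeroDivisors.ne_zero hcm), ?_⟩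
  apply Polynomial.map_injective _ hinj
  have hb' : U.map (algebraMap k[X] (RatFunc k)) = C (algebraMap k[X] (RatFunc k) b) * u := by
    rw [hb]
    ext n
    rw [coeff_smul, coeff_C_mul, Algebra.smul_def]
  have hc' : V.map (algebraMap k[X] (RatFunc k)) = C (algebraMap k[X] (RatFunc k) c) * v := by
    rw [hc]
    ext n
    rw [coeff_smul, coeff_C_mul, Algebra.smul_def]
  rw [Polynomial.map_add, Polynomial.map_mul, Polynomial.map_mul, Polynomial.map_mul,
    Polynomial.map_mul, map_C, map_C, map_C, hb', hc', map_mul, C_mul]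
  linear_combination (C (algebraMap k[X] (RatFunc k) b) * C (algebraMap k[X] (RatFunc k) c)) * huv

/-- A good curve has an unramified point off the line `x = a`: `fib` is irreducible and does not divide its
derivative. -/
theorem exists_unr_point {k : Type} [Field k] [IsAlgClosed k] {f : k[X][X][X]} {r e : ℕ}
    {E : Set (k × k[X])} (hr : 1 ≤ r) {κ : k} {α : k[X]} (h : Good f r e E κ α) (a : k) :
    ∃ a₁ b₁, a₁ ≠ a ∧ ((fib f κ α).eval (C b₁)).eval a₁ = 0 ∧ Unr (fib f κ α) a₁ b₁ := by
  classical
  have hdeg : (fib f κ α).natDegree ≠ 0 := by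
    rw [h.top]
    omega
  obtain ⟨A, B, D, hD, hAB⟩ := CF_bezout h.irr hdeg h.sep
  set F := fib f κ α with hF
  have hlc : F.leadingCoeff ≠ 0 := leadingCoeff_ne_zero.2 h.irr.ne_zero
  -- a good abscissa
  have hP : D * F.leadingCoeff * (X - C a) ≠ 0 :=
    mul_ne_zero (mul_ne_zero hD hlc) (X_sub_C_ne_zero a)
  obtain ⟨a₁, ha₁⟩ : ∃ a₁ : k, (D * F.leadingCoeff * (X - C a)).eval a₁ ≠ 0 := by
    by_contra hcon
    push Not at hcon
    exact hP (Polynomial.funext fun x => by rw [hcon x, eval_zero])
  rw [eval_mul, eval_mul, eval_sub, eval_X, eval_C] at ha₁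
  have hD1 : D.eval a₁ ≠ 0 := fun h0 => ha₁ (by rw [h0, zero_mul, zero_mul])
  have hl1 : F.leadingCoeff.eval a₁ ≠ 0 := fun h0 => ha₁ (by rw [h0, mul_zero, zero_mul])
  have haa : a₁ ≠ a := fun h0 => ha₁ (by rw [h0, sub_self, mul_zero])
  -- the fibre
  have hdeg1 : (F.map (evalRingHom a₁)).degree ≠ 0 := by
    rw [degree_map_eq_of_leadingCoeff_ne_zero (evalRingHom a₁) hl1]
    intro h0
    exact hdeg (natDegree_eq_of_degree_eq_some h0)
  obtain ⟨b₁, hb₁⟩ := IsAlgClosed.exists_root _ hdeg1
  have key : ∀ P : k[X][X], (P.map (evalRingHom a₁)).eval b₁ = (P.eval (C b₁)).eval a₁ := by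
    intro P
    have h1 := eval_map_apply (f := evalRingHom a₁) (p := P) (C b₁)
    rw [coe_evalRingHom, eval_C] at h1
    exact h1
  refine ⟨a₁, b₁, haa, ?_, ?_⟩
  · rw [← key]
    exact hb₁
  · intro h0
    have h1 := congrArg (fun P : k[X][X] => (P.eval (C b₁)).eval a₁) hAB
    simp only [eval_add, eval_mul, eval_C] at h1
    have h2 : (F.eval (C b₁)).eval a₁ = 0 := by
      rw [← key]
      exact hb₁
    have h3 : ((derivative F).eval (C b₁)).eval a₁ = 0 := h0
    rw [h2, h3, mul_zero, mul_zero, add_zero] at h1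
    exact hD1 h1.symm

end MPb197b4P
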