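import Pool.Agent.Lib.MP_b197b4_ntC.CC
import Pool.Agent.Lib.MP_b197b4_ntC.CE
import Pool.Agent.Lib.MP_b197b4_ntC.CF_h14

/-!
# Leaf CFb: step B
-/

set_option autoImplicit false

noncomputable section

namespace MPb197b4P

open Polynomial MPb197b4E

section transfer

variable {F k : Type} [Field F] [Field k] [Algebra F k]

theorem CFb_ev (g : F[X][X]) (a b : F) :
    ((g.map (mapRingHom (algebraMap F k))).eval (C (algebraMap F k b))).eval (algebraMap F k a)
      = algebraMap F k ((g.eval (C b)).eval a) := by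
  rw [show (C (algebraMap F k b) : k[X]) = (C b : F[X]).map (algebraMap F k) by rw [map_C],
    eval_map_map, eval_map_apply]

theorem CFb_ev2 (g : F[X][X]) (a b : F) :
    (derivative ((g.map (mapRingHom (algebraMap F k))).eval (C (algebraMap F k b)))).eval
      (algebraMap F k a) = algebraMap F k ((derivative (g.eval (C b))).eval a) := by
  rw [show (C (algebraMap F k b) : k[X]) = (C b : F[X]).map (algebraMap F k) by rw [map_C],
    eval_map_map, derivative_map, eval_map_apply]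

theorem CFb_unr (g : F[X][X]) (a b : F) :
    Unr (g.map (mapRingHom (algebraMap F k))) (algebraMap F k a) (algebraMap F k b) ↔ Unr g a b := by
  unfold Unr
  rw [derivative_map, CFb_ev, Ne, map_eq_zero]

theorem CFb_reg (g : F[X][X]) (a b : F) :
    RegPt (g.map (mapRingHom (algebraMap F k))) (algebraMap F k a) (algebraMap F k b) ↔
      RegPt g a b := by
  unfold RegPt
  rw [derivative_map, CFb_ev, CFb_ev2, Ne, Ne, map_eq_zero, map_eq_zero]

end transfer

/-- **STEP B**: two good curves through a point, regular there, have a common link (`exists_field`,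
`count_link` twice, `card_thru`). -/
theorem step_b (p : ℕ) [Fact p.Prime] (k : Type) [Field k] [CharP k p] [IsAlgClosed k]
    (halg : ∀ a : k, ∃ m : ℕ, 0 < m ∧ a ^ p ^ m = a) {f : k[X][X][X]} {r d e : ℕ} (hf : Wt f r d)
    (hde : d < e) (he : r + 5 ≤ e) {E : Set (k × k[X])}
    {κ κ' : k} {α α' : k[X]} {a b : k} (h : Good f r e E κ α) (h' : Good f r e E κ' α')
    (hc : α.eval a + κ * b = α'.eval a + κ' * b) (h0 : ((fib f κ α).eval (C b)).eval a = 0)
    (hr : RegPt (fib f κ α) a b) (hr' : RegPt (fib f κ' α') a b) :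
    ∃ κ₂ α₂, Link f r e E κ α κ₂ α₂ a b ∧ Link f r e E κ' α' κ₂ α₂ a b := by
  classical
  have h0' : ((fib f κ' α').eval (C b)).eval a = 0 := by
    rw [fib_ev] at h0 ⊢
    rw [← hc]; exact h0
  have hr2 := hf.two
  obtain ⟨c, hcl⟩ := count_link r e hr2 (by omega)
  obtain ⟨a₁, b₁, ha₁, hp₁, hu₁⟩ := exists_unr_point (by omega) h a
  obtain ⟨a₂, b₂, ha₂, hp₂, hu₂⟩ := exists_unr_point (by omega) h' a
  -- the field of definition
  let S : Set k := {c | ∃ i j l, c = ((f.coeff i).coeff j).coeff l} ∪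
    ((Finset.range (α.natDegree + 1)).image α.coeff : Finset k) ∪
    ((Finset.range (α'.natDegree + 1)).image α'.coeff : Finset k) ∪
    {κ, κ', a, b, a₁, b₁, a₂, b₂, 0}
  have hS : S.Finite := by
    refine ((((coeffs_finite f).union ?_).union ?_).union ?_)
    · exact Finset.finite_toSet _
    · exact Finset.finite_toSet _
    · exact Set.toFinite _
  obtain ⟨F, _, _, _, μ, hcard, hN, hF⟩ := exists_field p k halg S hS (2 * c)
  have hcoef : ∀ (q : k[X]), (((Finset.range (q.natDegree + 1)).image q.coeff : Finset k) : Set k) ⊆ S →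
      ∃ q' : F[X], q'.map (algebraMap F k) = q := by
    intro q hq
    apply lift_one
    intro i
    by_cases hi : i ≤ q.natDegree
    · apply hF
      apply hq
      rw [Finset.mem_coe, Finset.mem_image]
      exact ⟨i, Finset.mem_range.2 (by omega), rfl⟩
    · refine ⟨0, ?_⟩
      rw [map_zero, coeff_eq_zero_of_natDegree_lt (by omega)]
  obtain ⟨f₀, rfl⟩ := lift_three f (fun i j l => hF _ (Or.inl (Or.inl (Or.inl ⟨i, j, l, rfl⟩))))
  obtain ⟨α₀, hα₀⟩ := hcoef α (fun x hx => Or.inl (Or.inl (Or.inr hx)))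
  obtain ⟨α₀', hα₀'⟩ := hcoef α' (fun x hx => Or.inl (Or.inr hx))
  obtain ⟨κ₀, hκ₀⟩ := hF κ (Or.inr (by simp))
  obtain ⟨κ₀', hκ₀'⟩ := hF κ' (Or.inr (by simp))
  obtain ⟨a₀, ha₀⟩ := hF a (Or.inr (by simp))
  obtain ⟨b₀, hb₀⟩ := hF b (Or.inr (by simp))
  obtain ⟨u₁, hu₁'⟩ := hF a₁ (Or.inr (by simp))
  obtain ⟨v₁, hv₁⟩ := hF b₁ (Or.inr (by simp))
  obtain ⟨u₂, hu₂'⟩ := hF a₂ (Or.inr (by simp))
  obtain ⟨v₂, hv₂⟩ := hF b₂ (Or.inr (by simp))
  clear hcoef hF hS S
  subst hα₀ hα₀' hκ₀ hκ₀' ha₀ hb₀ hu₁' hv₁ hu₂' hv₂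
  change Wt (bc3 F k f₀) r d at hf
  change Good (bc3 F k f₀) r e E _ _ at h
  change Good (bc3 F k f₀) r e E _ _ at h'
  have hfm : fib (f₀.map (mapRingHom (mapRingHom (algebraMap F k)))) (algebraMap F k κ₀)
      (α₀.map (algebraMap F k)) = (fib f₀ κ₀ α₀).map (mapRingHom (algebraMap F k)) :=
    fib_map F k f₀ κ₀ α₀
  have hfm' : fib (f₀.map (mapRingHom (mapRingHom (algebraMap F k)))) (algebraMap F k κ₀')
      (α₀'.map (algebraMap F k)) = (fib f₀ κ₀' α₀').map (mapRingHom (algebraMap F k)) :=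
    fib_map F k f₀ κ₀' α₀'
  rw [hfm] at h0 hr hp₁ hu₁
  rw [hfm'] at h0' hr' hp₂ hu₂
  rw [CFb_ev, map_eq_zero] at h0 h0' hp₁ hp₂
  rw [CFb_reg] at hr hr'
  rw [CFb_unr] at hu₁ hu₂
  have hinj := (algebraMap F k).injective
  have hcc : α₀.eval a₀ + κ₀ * b₀ = α₀'.eval a₀ + κ₀' * b₀ := by
    apply hinj
    rw [map_add, map_add, map_mul, map_mul, ← eval_map_apply, ← eval_map_apply]
    exact hc
  have k1 := hcl F k f₀ d E κ₀ α₀ a₀ b₀ u₁ v₁ (by omega) hf hde h h0 hr
    (fun hh => ha₁ (by rw [hh])) hp₁ hu₁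
  have k2 := hcl F k f₀ d E κ₀' α₀' a₀ b₀ u₂ v₂ (by omega) hf hde h' h0' hr'
    (fun hh => ha₂ (by rw [hh])) hp₂ hu₂
  rw [← hcc] at k2
  have k3 := card_thru F e a₀ b₀ (α₀.eval a₀ + κ₀ * b₀)
  set T := thru F e a₀ b₀ (α₀.eval a₀ + κ₀ * b₀) with hT
  set Q := Fintype.card F with hQ
  have hQ0 : 0 < Q ^ e := pow_pos Fintype.card_pos _
  have hlt : 2 * c * Q ^ e < Q ^ (e + 1) := by
    rw [pow_succ, mul_comm (Q ^ e) Q]
    exact Nat.mul_lt_mul_of_pos_right hN hQ0
  by_contra hne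
  push Not at hne
  have hsub : T ⊆ (T.filter fun s => ¬ Link (bc3 F k f₀) r e E (algebraMap F k κ₀)
      (α₀.map (algebraMap F k)) (algebraMap F k s.1) (s.2.map (algebraMap F k)) (algebraMap F k a₀)
      (algebraMap F k b₀)) ∪ (T.filter fun s => ¬ Link (bc3 F k f₀) r e E (algebraMap F k κ₀')
      (α₀'.map (algebraMap F k)) (algebraMap F k s.1) (s.2.map (algebraMap F k)) (algebraMap F k a₀)
      (algebraMap F k b₀)) := by
    intro s hs
    rw [Finset.mem_union, Finset.mem_filter, Finset.mem_filter]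
    by_cases hl : Link (bc3 F k f₀) r e E (algebraMap F k κ₀)
      (α₀.map (algebraMap F k)) (algebraMap F k s.1) (s.2.map (algebraMap F k)) (algebraMap F k a₀)
      (algebraMap F k b₀)
    · exact Or.inr ⟨hs, hne _ _ hl⟩
    · exact Or.inl ⟨hs, hl⟩
  have h4 := (Finset.card_le_card hsub).trans (Finset.card_union_le _ _)
  rw [k3] at h4
  have : Q ^ (e + 1) ≤ c * Q ^ e + c * Q ^ e := h4.trans (add_le_add k1 k2)
  have : Q ^ (e + 1) ≤ 2 * c * Q ^ e := by linarith
  omega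

end MPb197b4P
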