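import Pool.Agent.Lib.MP_b197b4_ntC.CFA
import Pool.Agent.Lib.MP_b197b4_ntC.CFb

/-!
# CORE
-/

set_option autoImplicit false

noncomputable section

namespace MPb197b4P

open Polynomial

/-- **CORE.** -/
theorem core (p : ℕ) [Fact p.Prime] (k : Type) [Field k] [CharP k p] [IsAlgClosed k]
    (halg : ∀ a : k, ∃ m : ℕ, 0 < m ∧ a ^ p ^ m = a) : Core k := by
  intro f r d hf e₀
  obtain ⟨e, he, hp⟩ := MPb197b4E.exists_m r (e₀ + d + r + 6) (by have := hf.two; omega)
  refine ⟨e, by omega, by omega, ?_⟩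
  intro E G g hG κ α κ' α' a b c h h' hc hc' h0 hr hr'
  have h1 : ((fib f κ α).eval (C b)).eval a = 0 := by rw [fib_ev, ← hc]; exact h0
  have h2 : ((fib f κ' α').eval (C b)).eval a = 0 := by rw [fib_ev, ← hc']; exact h0
  obtain ⟨κ₂, α₂, l1, l2⟩ :=
    step_b p k halg hf (by omega) (by omega) h h' (hc.symm.trans hc') h1 hr hr'
  rw [step_a p k halg hf (by omega) (by omega) hp hG h l1 h1,
    step_a p k halg hf (by omega) (by omega) hp hG h' l2 h2]

end MPb197b4P
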