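import Mathlib

/-!
# MP_b197b4_nt, project K1: the polynomial theorem, definitions

`f` is a polynomial in `x, y, z` (innermost variable `x`, outermost `z`).
-/

set_option autoImplicit false

namespace MPb197b4P

open Polynomial

variable {k : Type} [Field k]

/-- the plane curve cut out by `z = κ y + α(x)` -/
noncomputable def fib (f : k[X][X][X]) (κ : k) (α : k[X]) : k[X][X] :=
  f.eval (C (C κ) * X + C α)

/-- the points of this curve on `y = γ(x)` -/
noncomputable def cut (f : k[X][X][X]) (κ : k) (α γ : k[X]) : k[X] := (fib f κ α).eval γ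

/-- value at a point -/
noncomputable def ev3 (f : k[X][X][X]) (a b c : k) : k := ((f.eval (C (C c))).eval (C b)).eval a

/-- one of the derivatives with respect to `y` and `z` does not vanish at `(a, b, c)` -/
def NicePt (f : k[X][X][X]) (a b c : k) : Prop :=
  ((derivative (f.eval (C (C c)))).eval (C b)).eval a ≠ 0 ∨ ev3 (derivative f) a b c ≠ 0

/-- `(a, b)` is not a singular point of the plane curve -/
def RegPt (g : k[X][X]) (a b : k) : Prop :=
  ((derivative g).eval (C b)).eval a ≠ 0 ∨ (derivative (g.eval (C b))).eval a ≠ 0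

/-- the polynomials of the project -/
structure Wt (f : k[X][X][X]) (r d : ℕ) : Prop where
  monic : f.Monic
  deg : f.natDegree = r
  irr : Irreducible f
  two : 2 ≤ r
  pos : 1 ≤ d
  wt : ∀ i j, (f.coeff j).coeff i ≠ 0 → ((f.coeff j).coeff i).natDegree + d * (i + j) ≤ d * r

/-- the curves of the family used -/
structure Good (f : k[X][X][X]) (r e : ℕ) (E : Set (k × k[X])) (κ : k) (α : k[X]) : Prop where
  deg : α.natDegree ≤ e
  lead : α.coeff e ≠ 0 ∨ (κ, α) ∈ E
  irr : Irreducible (fib f κ α)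
  top : (fib f κ α).natDegree = r
  sep : derivative (fib f κ α) ≠ 0

/-- `y = γ(x)` meets the curve in `n` different points -/
structure Spl (f : k[X][X][X]) (e n : ℕ) (κ : k) (α γ : k[X]) : Prop where
  deg : γ.natDegree ≤ e
  num : (cut f κ α γ).natDegree = n
  sep : (cut f κ α γ).Separable

open Classical in
/-- **CORE.** -/
def Core (k : Type) [Field k] : Prop :=
  ∀ (f : k[X][X][X]) (r d : ℕ), Wt f r d → ∀ e₀ : ℕ, ∃ e : ℕ, e₀ < e ∧ d < e ∧
    ∀ (E : Set (k × k[X])) (G : k[X] → k[X] → ℚ) (g : k → k[X] → k × k → ℚ),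
      (∀ κ α γ, Good f r e E κ α → Spl f e (r * e) κ α γ →
        G γ (α + C κ * γ) = ∑ a ∈ (cut f κ α γ).roots.toFinset, g κ α (a, γ.eval a)) →
      ∀ κ α κ' α' a b c, Good f r e E κ α → Good f r e E κ' α' →
        c = α.eval a + κ * b → c = α'.eval a + κ' * b → ev3 f a b c = 0 →
        RegPt (fib f κ α) a b → RegPt (fib f κ' α') a b → g κ α (a, b) = g κ' α' (a, b)

/-- **BERT.** -/
def Bert (k : Type) [Field k] : Prop :=
  ∀ (f : k[X][X][X]) (r d : ℕ), Wt f r d → ∀ a₀ : k,
    ((f.eval 0).eval 0).rootMultiplicity a₀ = 1 →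
    {κ : k | ¬ Irreducible (fib f κ 0)}.Finite

/-- `(a, b)` is unramified over the `x`-line -/
def Unr (g : k[X][X]) (a b : k) : Prop := ((derivative g).eval (C b)).eval a ≠ 0

/-- The curves `(κ, α)` and `(κ', α')` meet in a split block through `(a, b)` with two points unramified
on both. -/
def Link (f : k[X][X][X]) (r e : ℕ) (E : Set (k × k[X])) (κ : k) (α : k[X]) (κ' : k) (α' : k[X])
    (a b : k) : Prop :=
  κ ≠ κ' ∧ Good f r e E κ' α' ∧ ∃ γ : k[X], γ.eval a = b ∧ α + C κ * γ = α' + C κ' * γ ∧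
    Spl f e (r * e) κ α γ ∧ ∃ a₁ a₂, a₁ ≠ a₂ ∧ (cut f κ α γ).eval a₁ = 0 ∧
      (cut f κ α γ).eval a₂ = 0 ∧ Unr (fib f κ α) a₁ (γ.eval a₁) ∧ Unr (fib f κ α) a₂ (γ.eval a₂) ∧
      Unr (fib f κ' α') a₁ (γ.eval a₁) ∧ Unr (fib f κ' α') a₂ (γ.eval a₂)

end MPb197b4P
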