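import Mathlib
import Pool.Agent.Lib.MP_b197b4_ntK.Defs2
import Pool.Agent.Lib.MP_b197b4_ntK.Curve

/-!
# MP_b197b4_nt, project K1: integrality by valuation rings

`x 0, ..., x n` are homogeneous coordinates of a surface.  Every valuation ring `W` of `F` over `k`
contains the local ring of a closed point.
-/

set_option autoImplicit false
set_option linter.style.haveILetI false

namespace Pool.Agent.Lib.MP_b197b4_ntK

open IsLocalRing

variable {k F : Type} [Field k] [Field F] [Algebra k F] {n : ℕ} {x : Fin (n + 1) → F}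

/-- The linear forms. -/
def Lin (k : Type) {F : Type} [Field k] [Field F] [Algebra k F] {n : ℕ}
    (x : Fin (n + 1) → F) : Submodule k F := Submodule.span k (Set.range x)

/-- The forms of degree `m`. -/
def Form (k : Type) {F : Type} [Field k] [Field F] [Algebra k F] {n : ℕ}
    (x : Fin (n + 1) → F) (m : ℕ) : Submodule k F := Lin k x ^ m

/-- `w` is a linear form without zeros at `R`. -/
structure IsGen (k : Type) {F : Type} [Field k] [Field F] [Algebra k F] {n : ℕ}
    (x : Fin (n + 1) → F) (R : Subring F) (w : F) : Prop where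
  mem : w ∈ Lin k x
  ne : w ≠ 0
  gen : ∀ v ∈ Lin k x, v / w ∈ R

/-- The form `s` of degree `d` has no zero at `R`. -/
def NZ (k : Type) {F : Type} [Field k] [Field F] [Algebra k F] {n : ℕ}
    (x : Fin (n + 1) → F) (R : Subring F) (d : ℕ) (s : F) : Prop :=
  s ≠ 0 ∧ ∃ w, IsGen k x R w ∧ (s / w ^ d)⁻¹ ∈ R

theorem IsGen.mono {R R' : Subring F} {w : F} (h : IsGen k x R w) (hR : (R : Set F) ⊆ R') :
    IsGen k x R' w := ⟨h.mem, h.ne, fun v hv => hR (h.gen v hv)⟩

theorem NZ.mono {R R' : Subring F} {d : ℕ} {s : F} (h : NZ k x R d s) (hR : (R : Set F) ⊆ R') :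
    NZ k x R' d s := by
  obtain ⟨h0, w, hw, h1⟩ := h
  exact ⟨h0, w, hw.mono hR, hR h1⟩

theorem form_div {R : Subring F} (hR : ∀ c : k, algebraMap k F c ∈ R) {w : F}
    (h : IsGen k x R w) (m : ℕ) {s : F} (hs : s ∈ Form k x m) : s / w ^ m ∈ R := by
  induction m generalizing s with
  | zero =>
    rw [Form, pow_zero] at hs
    obtain ⟨c, rfl⟩ := Submodule.mem_one.1 hs
    rw [pow_zero, div_one]
    exact hR c
  | succ m ih =>
    rw [Form, pow_succ] at hs
    refine Submodule.mul_induction_on hs ?_ ?_
    · intro a ha b hb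
      have e : a * b / w ^ (m + 1) = (a / w ^ m) * (b / w) := by
        rw [pow_succ, mul_div_mul_comm]
      rw [e]
      exact mul_mem (ih ha) (h.gen b hb)
    · intro a b ha hb
      rw [add_div]
      exact add_mem ha hb

theorem div_mem_of_nz {R : Subring F} (hR : ∀ c : k, algebraMap k F c ∈ R) {d : ℕ} {s v : F}
    (h : NZ k x R d s) (hv : v ∈ Form k x d) : v / s ∈ R := by
  obtain ⟨h0, w, hw, h1⟩ := h
  have e : v / s = (v / w ^ d) * (s / w ^ d)⁻¹ := by
    have := pow_ne_zero d hw.ne
    field_simp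
  rw [e]
  exact mul_mem (form_div hR hw d hv) h1

theorem lin_ne (hx : ∀ i, x i ≠ 0) (i : Fin (n + 1)) : x i ∈ Lin k x ∧ x i ≠ 0 :=
  ⟨Submodule.subset_span ⟨i, rfl⟩, hx i⟩

/-- One of the coordinates generates. -/
theorem exists_gen (hx : ∀ i, x i ≠ 0) (W : ValuationSubring F) (hW : Over k W) :
    ∃ j, (∀ i, x i / x j ∈ W) ∧ IsGen k x W.toSubring (x j) := by
  obtain ⟨j, hj⟩ := Finite.exists_max (fun i => W.valuation (x i))
  have h1 : ∀ i, x i / x j ∈ W := by
    intro i
    rw [← ValuationSubring.valuation_le_one_iff, map_div₀]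
    have h0 : W.valuation (x j) ≠ 0 := (Valuation.ne_zero_iff _).2 (hx j)
    exact (div_le_one₀ (zero_lt_iff.2 h0)).2 (hj i)
  refine ⟨j, h1, Submodule.subset_span ⟨j, rfl⟩, hx j, ?_⟩
  intro v hv
  change v / x j ∈ W
  induction hv using Submodule.span_induction with
  | mem v hv =>
    obtain ⟨i, rfl⟩ := hv
    exact h1 i
  | zero =>
    rw [zero_div]
    exact zero_mem _
  | add a b _ _ ha hb =>
    rw [add_div]
    exact add_mem ha hb
  | smul c a _ ha =>
    rw [Algebra.smul_def, mul_div_assoc]
    exact mul_mem (hW c) ha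

theorem chart_le (W : ValuationSubring F) (hW : Over k W) (j : Fin (n + 1))
    (h : ∀ i, x i / x j ∈ W) :
    ∀ a ∈ Algebra.adjoin k (Set.range fun i => x i / x j), a ∈ W := by
  intro a ha
  induction ha using Algebra.adjoin_induction with
  | mem a ha =>
    obtain ⟨i, rfl⟩ := ha
    exact h i
  | algebraMap c => exact hW c
  | add a b _ _ ha hb => exact add_mem ha hb
  | mul a b _ _ ha hb => exact mul_mem ha hb

/-- Every valuation ring over `k` contains the local ring of a closed point. -/
theorem exists_point_le (hx : ∀ i, x i ≠ 0) (W : ValuationSubring F) (hW : Over k W) :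
    ∃ O ∈ Points (charts k x), (O : Set F) ⊆ W := by
  obtain ⟨j, hj, -⟩ := exists_gen hx W hW
  have hA := chart_le W hW j hj
  obtain ⟨P, hPp, hP⟩ := exists_primeOf hA
  obtain ⟨m, hm, hPm⟩ := Ideal.exists_le_maximal P hPp.ne_top
  haveI := hm.isPrime
  refine ⟨locSub _ m, ⟨_, ⟨j, rfl⟩, m, hm, fun y => Iff.rfl⟩, ?_⟩
  rintro y ⟨a, s, hs, rfl⟩
  have h1 : W.valuation (s : F) = 1 := (hP.val_one hA s).1 fun h => hs (hPm h)
  rw [div_eq_mul_inv]
  refine mul_mem (hA a a.2) ?_
  rw [← ValuationSubring.valuation_le_one_iff, map_inv₀, h1, inv_one]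

/-- An element which is in every valuation ring which contains `k` and the set `S` is integral
over the algebra generated by `S`. -/
theorem integral_of_val (S : Set F) {u : F}
    (h : ∀ W : ValuationSubring F, Over k W → S ⊆ W → u ∈ W) :
    IsIntegral (Algebra.adjoin k S) u := by
  have h1 : u ∈ (⨅ V : {V : ValuationSubring F // (Set.range (algebraMap k F) ∪ S) ⊆ V.toSubring},
      V.1.toSubring) := by
    rw [Subring.mem_iInf]
    rintro ⟨V, hV⟩
    exact h V (fun c => hV (Or.inl ⟨c, rfl⟩)) fun s hs => hV (Or.inr hs)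
  rw [iInf_valuationSubring_superset] at h1
  have h2 : IsIntegral (Subring.closure (Set.range (algebraMap k F) ∪ S)) u := h1
  obtain ⟨p, hp, hp0⟩ := h2
  have hle : Subring.closure (Set.range (algebraMap k F) ∪ S) ≤
      (Algebra.adjoin k S).toSubring := by
    rw [Subring.closure_le]
    rintro a (⟨c, rfl⟩ | ha)
    · exact (Algebra.adjoin k S).algebraMap_mem c
    · exact Algebra.subset_adjoin ha
  let φ : Subring.closure (Set.range (algebraMap k F) ∪ S) →+* Algebra.adjoin k S :=
    Subring.inclusion hle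
  refine ⟨p.map φ, hp.map φ, ?_⟩
  rw [Polynomial.eval₂_map]
  exact hp0

/-- If the forms `s`, `t`, `y` have no common zero then the chart of `s` is integral over the
algebra generated by `t / s` and `y / s ^ a`. -/
theorem integral_chart (hx : ∀ i, x i ≠ 0) {s t y : F} {a : ℕ} (ha : 0 < a) (hs : s ∈ Lin k x)
    (h0 : s ≠ 0)
    (h : ∀ O ∈ Points (charts k x), NZ k x O 1 s ∨ NZ k x O 1 t ∨ NZ k x O a y)
    {v : F} (hv : v ∈ Lin k x) :
    IsIntegral (Algebra.adjoin k {t / s, y / s ^ a}) (v / s) := by
  refine integral_of_val _ fun W hW hS => ?_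
  obtain ⟨O, hO, hOW⟩ := exists_point_le hx W hW
  obtain ⟨j, -, hj⟩ := exists_gen hx W hW
  have hWk : ∀ c : k, algebraMap k F c ∈ W.toSubring := hW
  have hX : t / s ∈ W := hS (by simp)
  have hY : y / s ^ a ∈ W := hS (by simp)
  have hv1 : v ∈ Form k x 1 := by rw [Form, pow_one]; exact hv
  have hs1 : s ∈ Form k x 1 := by rw [Form, pow_one]; exact hs
  rcases h O hO with h1 | h1 | h1
  · exact div_mem_of_nz hWk (h1.mono hOW) hv1
  · have h2 : v / t ∈ W.toSubring := div_mem_of_nz hWk (h1.mono hOW) hv1
    have ht0 := h1.1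
    have e : v / s = (v / t) * (t / s) := by field_simp
    rw [e]
    exact mul_mem h2 hX
  · -- `s ^ a / y` and `v ^ a / y` are in `W`
    have hy0 := h1.1
    have hva : v ^ a ∈ Form k x a := by
      rw [Form]
      exact Submodule.pow_mem_pow _ hv a
    have h2 : v ^ a / y ∈ W.toSubring := div_mem_of_nz hWk (h1.mono hOW) hva
    have h3 : (v / s) ^ a ∈ W := by
      have e : (v / s) ^ a = (v ^ a / y) * (y / s ^ a) := by
        rw [div_pow]
        field_simp
      rw [e]
      exact mul_mem h2 hY
    rw [← ValuationSubring.valuation_le_one_iff, map_pow] at h3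
    rw [← ValuationSubring.valuation_le_one_iff]
    exact (pow_le_one_iff ha.ne').1 h3

/-- The valuation ring composed of `V` and the valuation ring `W` of its residue field. -/
noncomputable def comp (V : ValuationSubring F) (W : ValuationSubring (ResidueField V)) :
    ValuationSubring F :=
  ValuationSubring.ofSubring ((W.toSubring.comap (residue V)).map V.subtype) (by
    intro y
    by_cases hy : y ∈ V
    · by_cases hu : V.valuation y = 1
      · have hy' : y⁻¹ ∈ V := by
          rw [← ValuationSubring.valuation_le_one_iff, map_inv₀, hu, inv_one]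
        have hy0 : y ≠ 0 := ne_zero_of_val_one hu
        have hprod : (⟨y, hy⟩ : V) * ⟨y⁻¹, hy'⟩ = 1 := Subtype.ext (mul_inv_cancel₀ hy0)
        have hr : residue V ⟨y⁻¹, hy'⟩ = (residue V ⟨y, hy⟩)⁻¹ := by
          have h1 := congrArg (residue V) hprod
          rw [map_mul, map_one] at h1
          exact (inv_eq_of_mul_eq_one_right h1).symm
        rcases W.mem_or_inv_mem (residue V ⟨y, hy⟩) with h | h
        · exact Or.inl ⟨⟨y, hy⟩, h, rfl⟩
        · right
          refine ⟨⟨y⁻¹, hy'⟩, ?_, rfl⟩
          change residue V ⟨y⁻¹, hy'⟩ ∈ W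
          rw [hr]
          exact h
      · left
        refine ⟨⟨y, hy⟩, ?_, rfl⟩
        change residue V ⟨y, hy⟩ ∈ W
        have h1 : V.valuation y < 1 :=
          lt_of_le_of_ne ((ValuationSubring.valuation_le_one_iff V _).2 hy) hu
        have h2 : (⟨y, hy⟩ : V) ∈ maximalIdeal V :=
          (ValuationSubring.valuation_lt_one_iff V ⟨y, hy⟩).2 h1
        rw [(residue_eq_zero_iff _).2 h2]
        exact zero_mem _
    · right
      have h0 : ¬ V.valuation y ≤ 1 := fun h => hy ((ValuationSubring.valuation_le_one_iff V _).1 h)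
      have h1 : V.valuation y⁻¹ < 1 := by
        rw [map_inv₀]
        exact inv_lt_one_of_one_lt₀ (not_le.1 h0)
      have hy' : y⁻¹ ∈ V := (ValuationSubring.valuation_le_one_iff V _).1 h1.le
      refine ⟨⟨y⁻¹, hy'⟩, ?_, rfl⟩
      change residue V ⟨y⁻¹, hy'⟩ ∈ W
      have h2 : (⟨y⁻¹, hy'⟩ : V) ∈ maximalIdeal V :=
        (ValuationSubring.valuation_lt_one_iff V ⟨y⁻¹, hy'⟩).2 h1
      rw [(residue_eq_zero_iff _).2 h2]
      exact zero_mem _)

theorem mem_comp {V : ValuationSubring F} {W : ValuationSubring (ResidueField V)} {y : F} :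
    y ∈ comp V W ↔ y ∈ V ∧ res V y ∈ W := by
  constructor
  · intro h
    obtain ⟨z, hz, rfl⟩ := h
    refine ⟨z.2, ?_⟩
    change res V (z : F) ∈ W
    rw [res_coe]
    exact hz
  · rintro ⟨h1, h2⟩
    refine ⟨⟨y, h1⟩, ?_, rfl⟩
    rw [res_of_mem h1] at h2
    exact h2

theorem over_comp {V : ValuationSubring F} {W : ValuationSubring (ResidueField V)}
    (hV : Over k V) (hW : ∀ c : k, res V (algebraMap k F c) ∈ W) : Over k (comp V W) :=
  fun c => mem_comp.2 ⟨hV c, hW c⟩

/-- A function on a curve which is regular at all closed points of the curve is constant. -/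
theorem const_of_regular [IsAlgClosed k] (hx : ∀ i, x i ≠ 0) {V : ValuationSubring F}
    (hV : Over k V) {u : ResidueField V}
    (h : ∀ O ∈ Points (charts k x), (O : Set F) ⊆ V → u ∈ curveLoc O V) :
    ∃ c : k, u = res V (algebraMap k F c) := by
  -- the constants in the residue field
  let φ : k →+* ResidueField V := (residue V).comp
    { toFun := fun c => (⟨algebraMap k F c, hV c⟩ : V)
      map_one' := Subtype.ext (map_one _)
      map_mul' := fun a b => Subtype.ext (map_mul _ a b)
      map_zero' := Subtype.ext (map_zero _)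
      map_add' := fun a b => Subtype.ext (map_add _ a b) }
  have hφ : ∀ c, φ c = res V (algebraMap k F c) := by
    intro c
    rw [res_of_mem (hV c)]
    rfl
  have h1 : u ∈ (⨅ W : {W : ValuationSubring (ResidueField V) // Set.range φ ⊆ W.toSubring},
      W.1.toSubring) := by
    rw [Subring.mem_iInf]
    rintro ⟨W, hW⟩
    have hW' : ∀ c : k, res V (algebraMap k F c) ∈ W := by
      intro c
      rw [← hφ]
      exact hW ⟨c, rfl⟩
    obtain ⟨O, hO, hOW⟩ := exists_point_le hx (comp V W) (over_comp hV hW')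
    have hOV : (O : Set F) ⊆ V := fun y hy => (mem_comp.1 (hOW hy)).1
    have h2 := h O hO hOV
    change u ∈ W
    obtain ⟨z, hz, rfl⟩ := h2
    have h3 : (z : F) ∈ O := hz
    have h4 := (mem_comp.1 (hOW h3)).2
    rw [res_coe] at h4
    exact h4
  rw [iInf_valuationSubring_superset] at h1
  have h2 : IsIntegral (Subring.closure (Set.range φ)) u := h1
  obtain ⟨p, hp, hp0⟩ := h2
  have hle : Subring.closure (Set.range φ) ≤ φ.range := by
    rw [Subring.closure_le]
    rintro _ ⟨c, rfl⟩
    exact ⟨c, rfl⟩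
  -- lift the polynomial to `k`
  letI : Algebra k (ResidueField V) := φ.toAlgebra
  have h3 : IsIntegral k u := by
    let ψ : Subring.closure (Set.range φ) →+* φ.range := Subring.inclusion hle
    have hψ : IsIntegral φ.range u := by
      refine ⟨p.map ψ, hp.map ψ, ?_⟩
      rw [Polynomial.eval₂_map]
      exact hp0
    obtain ⟨q, hq, hq0⟩ := hψ
    have hinj : Function.Bijective φ.rangeRestrict :=
      ⟨fun a b hab => φ.injective (congrArg Subtype.val hab), φ.rangeRestrict_surjective⟩
    let e := RingEquiv.ofBijective φ.rangeRestrict hinj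
    refine ⟨q.map (e.symm : φ.range →+* k), hq.map _, ?_⟩
    rw [Polynomial.eval₂_map]
    have he : (algebraMap k (ResidueField V)).comp (e.symm : φ.range →+* k) =
        algebraMap φ.range (ResidueField V) := by
      apply RingHom.ext
      intro z
      obtain ⟨c, rfl⟩ := φ.rangeRestrict_surjective z
      have : e.symm (φ.rangeRestrict c) = c := e.symm_apply_apply c
      change φ (e.symm (φ.rangeRestrict c)) = φ c
      rw [this]
    rw [he]
    exact hq0
  haveI : Algebra.IsIntegral k (integralClosure k (ResidueField V)) :=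
    integralClosure.AlgebraIsIntegral
  obtain ⟨c, hc⟩ := (IsAlgClosed.algebraMap_bijective_of_isIntegral (k := k)
    (K := integralClosure k (ResidueField V))).2 ⟨u, h3⟩
  refine ⟨c, ?_⟩
  have h5 := congrArg Subtype.val hc
  rw [← hφ]
  exact h5.symm

theorem root_const [IsAlgClosed k] {V : ValuationSubring F} (hV : Over k V) {b : ℕ} (hb : 0 < b)
    {y : F} (hy : y ∈ V) {d : k} (h : res V y ^ b = res V (algebraMap k F d)) :
    ∃ c : k, res V y = res V (algebraMap k F c) := by
  obtain ⟨z, hz⟩ := IsAlgClosed.exists_pow_nat_eq d hb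
  by_cases hz0 : z = 0
  · refine ⟨0, ?_⟩
    rw [hz0, zero_pow hb.ne'] at hz
    rw [← hz, map_zero, res_zero] at h
    rw [map_zero, res_zero]
    exact pow_eq_zero_iff hb.ne' |>.1 h
  · -- the quotient is a root of unity
    have hpos : (Polynomial.X ^ b - Polynomial.C (1 : k)).Monic :=
      Polynomial.monic_X_pow_sub_C (1 : k) hb.ne'
    let φ : k →+* ResidueField V := (residue V).comp
      { toFun := fun c => (⟨algebraMap k F c, hV c⟩ : V)
        map_one' := Subtype.ext (map_one _)
        map_mul' := fun a b => Subtype.ext (map_mul _ a b)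
        map_zero' := Subtype.ext (map_zero _)
        map_add' := fun a b => Subtype.ext (map_add _ a b) }
    have hφ : ∀ c, φ c = res V (algebraMap k F c) := by
      intro c
      rw [res_of_mem (hV c)]
      rfl
    have hspl : (Polynomial.X ^ b - Polynomial.C d).Splits :=
      IsAlgClosed.splits _
    have hmon : (Polynomial.X ^ b - Polynomial.C d).Monic :=
      Polynomial.monic_X_pow_sub_C d hb.ne'
    have hroot : ((Polynomial.X ^ b - Polynomial.C d).map φ).IsRoot (res V y) := by
      simp only [Polynomial.map_sub, Polynomial.map_pow, Polynomial.map_X, Polynomial.map_C,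
        Polynomial.IsRoot.def, Polynomial.eval_sub, Polynomial.eval_pow, Polynomial.eval_X,
        Polynomial.eval_C]
      rw [h, hφ, sub_self]
    have hprod := hspl.eq_prod_roots
    rw [hmon.leadingCoeff, Polynomial.C_1, one_mul] at hprod
    rw [hprod] at hroot
    have h2 : ((Multiset.map (fun a => Polynomial.X - Polynomial.C a)
        (Polynomial.X ^ b - Polynomial.C d).roots).map fun q => (q.map φ).eval (res V y)).prod = 0 := by
      rw [Polynomial.IsRoot.def, Polynomial.map_multiset_prod, Polynomial.eval_multiset_prod,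
        Multiset.map_map, Multiset.map_map] at hroot
      rw [Multiset.map_map]
      exact hroot
    rw [Multiset.prod_eq_zero_iff, Multiset.mem_map] at h2
    obtain ⟨q, hq, hq0⟩ := h2
    obtain ⟨c, -, rfl⟩ := Multiset.mem_map.1 hq
    refine ⟨c, ?_⟩
    rw [Polynomial.map_sub, Polynomial.map_X, Polynomial.map_C, Polynomial.eval_sub,
      Polynomial.eval_X, Polynomial.eval_C, sub_eq_zero] at hq0
    rw [hq0, hφ]

/-- A form of positive degree has a zero on every curve. -/
theorem exists_zero [IsAlgClosed k] (hS : Surf k x) {V : ValuationSubring F}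
    (hV : V ∈ Curves (charts k x)) {b : ℕ} (hb : 0 < b) {s : F} (hs : s ∈ Form k x b)
    (h : ∀ O ∈ Points (charts k x), (O : Set F) ⊆ V → NZ k x O b s) : False := by
  obtain ⟨A, ⟨i, rfl⟩, hVA⟩ := hV
  have hVk : Over k V := fun c => hVA.2.1 _ (Subalgebra.algebraMap_mem _ c)
  have hVk' : ∀ c : k, algebraMap k F c ∈ V.toSubring := hVk
  have hji : ∀ j, x j / x i ∈ V := fun j => hVA.2.1 _ (Algebra.subset_adjoin ⟨j, rfl⟩)
  obtain ⟨O₀, hO₀, hOV₀⟩ := exists_point_le hS.ne V hVk
  have hnz : NZ k x V.toSubring b s := (h O₀ hO₀ hOV₀).mono hOV₀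
  have hs0 := hnz.1
  have hOk : ∀ O ∈ Points (charts k x), ∀ c : k, algebraMap k F c ∈ O := by
    rintro O ⟨A, ⟨j, rfl⟩, m, hm, hO⟩ c
    rw [hO]
    exact ⟨⟨_, Subalgebra.algebraMap_mem _ c⟩, 1, (Ideal.ne_top_iff_one m).1 hm.ne_top, by simp⟩
  have hxp : ∀ j, x j ^ b ∈ Form k x b := fun j =>
    Submodule.pow_mem_pow _ (lin_ne hS.ne j).1 b
  have key : ∀ j, ∃ c : k, res V (x j ^ b / s) = res V (algebraMap k F c) := by
    intro j
    refine const_of_regular hS.ne hVk fun O hO hOV => ?_
    have h1 : x j ^ b / s ∈ O := div_mem_of_nz (hOk O hO) (h O hO hOV) (hxp j)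
    have h2 : x j ^ b / s ∈ V := hOV h1
    rw [res_of_mem h2]
    exact ⟨⟨_, h2⟩, h1, rfl⟩
  have hmem : ∀ j, x j ^ b / s ∈ V := fun j => div_mem_of_nz hVk' hnz (hxp j)
  have hi0 := hS.ne i
  -- the generator `x i`
  have hgen : IsGen k x V.toSubring (x i) := by
    refine ⟨(lin_ne hS.ne i).1, hi0, fun v hv => ?_⟩
    change v / x i ∈ V
    induction hv using Submodule.span_induction with
    | mem v hv =>
      obtain ⟨j, rfl⟩ := hv
      exact hji j
    | zero =>
      rw [zero_div]
      exact zero_mem _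
    | add a b _ _ ha hb =>
      rw [add_div]
      exact add_mem ha hb
    | smul c a _ ha =>
      rw [Algebra.smul_def, mul_div_assoc]
      exact mul_mem (hVk c) ha
  have hsi : s / x i ^ b ∈ V := form_div hVk' hgen b hs
  have hval : V.valuation (x i ^ b / s) = 1 := by
    have h1 := (ValuationSubring.valuation_le_one_iff V _).2 (hmem i)
    have h2 := (ValuationSubring.valuation_le_one_iff V _).2 hsi
    have h3 : V.valuation (x i ^ b / s) * V.valuation (s / x i ^ b) = 1 := by
      rw [← map_mul]
      have : x i ^ b / s * (s / x i ^ b) = 1 := by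
        have := pow_ne_zero b hi0
        field_simp
      rw [this, map_one]
    refine le_antisymm h1 ?_
    by_contra hlt
    rw [not_le] at hlt
    have h4 := mul_lt_one_of_lt_of_le hlt h2
    rw [h3] at h4
    exact lt_irrefl _ h4
  obtain ⟨ci, hci⟩ := key i
  have hconst : ∀ j, ∃ c : k, res V (x j / x i) = res V (algebraMap k F c) := by
    intro j
    obtain ⟨cj, hcj⟩ := key j
    have h1 : (x j / x i) ^ b = (x j ^ b / s) / (x i ^ b / s) := by
      rw [div_pow]
      have := pow_ne_zero b hi0
      field_simp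
    have h2 : res V (x j / x i) ^ b = res V (algebraMap k F (cj / ci)) := by
      have hci0 : V.valuation (algebraMap k F ci) = 1 := by
        have h5 : res V (x i ^ b / s) ≠ 0 := (res_ne_zero_iff (hmem i)).2 hval
        rw [hci] at h5
        exact (res_ne_zero_iff (hVk ci)).1 h5
      rw [← res_pow (hji j), h1, res_div (hmem j) hval, hcj, hci, map_div₀,
        res_div (hVk cj) hci0]
    exact root_const hVk hb (hji j) h2
  -- all of `A` is constant modulo the prime ideal
  have hall : ∀ a ∈ Algebra.adjoin k (Set.range fun j => x j / x i),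
      ∃ c : k, res V a = res V (algebraMap k F c) := by
    intro a ha
    induction ha using Algebra.adjoin_induction with
    | mem a ha =>
      obtain ⟨j, rfl⟩ := ha
      exact hconst j
    | algebraMap c => exact ⟨c, rfl⟩
    | add a b ha hb iha ihb =>
      obtain ⟨c, hc⟩ := iha
      obtain ⟨d, hd⟩ := ihb
      refine ⟨c + d, ?_⟩
      rw [res_add (hVA.2.1 a ha) (hVA.2.1 b hb), hc, hd, map_add, res_add (hVk c) (hVk d)]
    | mul a b ha hb iha ihb =>
      obtain ⟨c, hc⟩ := iha
      obtain ⟨d, hd⟩ := ihb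
      refine ⟨c * d, ?_⟩
      rw [res_mul (hVA.2.1 a ha) (hVA.2.1 b hb), hc, hd, map_mul, res_mul (hVk c) (hVk d)]
  obtain ⟨P, hPp, hP⟩ := exists_primeOf hVA.2.1
  have hmax : P.IsMaximal := by
    rw [Ideal.isMaximal_iff]
    refine ⟨(Ideal.ne_top_iff_one P).1 hPp.ne_top, ?_⟩
    intro J a hPJ haP haJ
    obtain ⟨c, hc⟩ := hall a a.2
    have hc0 : c ≠ 0 := by
      rintro rfl
      rw [map_zero, res_zero, res_eq_zero_iff (hVA.2.1 a a.2)] at hc
      exact haP ((hP a).2 hc)
    have h1 : (a - algebraMap k _ c) ∈ P := by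
      rw [hP]
      have h2 : ((a - algebraMap k _ c : Algebra.adjoin k (Set.range fun j => x j / x i)) : F) ∈ V :=
        hVA.2.1 _ (a - algebraMap k _ c).2
      rw [← res_eq_zero_iff h2]
      change res V ((a : F) - algebraMap k F c) = 0
      rw [res_sub (hVA.2.1 a a.2) (hVk c), hc, sub_self]
    have h2 : algebraMap k _ c ∈ J := by
      have h3 := J.sub_mem haJ (hPJ h1)
      rwa [sub_sub_cancel] at h3
    have h3 : (algebraMap k _ c⁻¹) * (algebraMap k _ c) ∈ J := J.mul_mem_left _ h2
    rwa [← map_mul, inv_mul_cancel₀ hc0, map_one] at h3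
  have h1 := hVA.height hP
  rw [(hS.chart i).height P hmax] at h1
  exact absurd h1 (by decide)

end Pool.Agent.Lib.MP_b197b4_ntK
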