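import Pool.Agent.Lib.MP_b197b4_ntC.CDefs
import Pool.Agent.Lib.MP_b197b4_ntE.EA1
import Pool.Agent.Lib.MP_b197b4_ntP.Bert4

/-!
# Leaf CA: the plane curves of the family
-/

set_option autoImplicit false

noncomputable section

namespace MPb197b4P

open Polynomial MPb197b4E

variable {k : Type} [Field k]

/-- the coefficient of `Y ^ i` has degree at most `m (s - i)`, and the degree is at most `s` -/
def CA_PW (m s : ℕ) (g : k[X][X]) : Prop :=
  (∀ i ≤ s, (g.coeff i).natDegree ≤ m * (s - i)) ∧ g.natDegree ≤ s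

theorem CA_PW.mul {m s t : ℕ} {g h : k[X][X]} (hg : CA_PW m s g) (hh : CA_PW m t h) :
    CA_PW m (s + t) (g * h) := by
  refine ⟨fun i hi => ?_, natDegree_mul_le.trans (add_le_add hg.2 hh.2)⟩
  rw [coeff_mul]
  refine natDegree_sum_le_of_forall_le _ _ fun p hp => ?_
  have hpi := Finset.HasAntidiagonal.mem_antidiagonal.1 hp
  by_cases h1 : p.1 ≤ s
  · by_cases h2 : p.2 ≤ t
    · refine natDegree_mul_le.trans ((add_le_add (hg.1 _ h1) (hh.1 _ h2)).trans ?_)
      rw [← mul_add]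
      refine Nat.mul_le_mul_left _ ?_
      lia
    · rw [coeff_eq_zero_of_natDegree_lt (lt_of_le_of_lt hh.2 (not_le.1 h2)), mul_zero]
      simp
  · rw [coeff_eq_zero_of_natDegree_lt (lt_of_le_of_lt hg.2 (not_le.1 h1)), zero_mul]
    simp

theorem CA_PW.one {m : ℕ} : CA_PW m 0 (1 : k[X][X]) := by
  refine ⟨fun i _ => ?_, by simp⟩
  rw [coeff_one]
  split_ifs <;> simp

theorem CA_PW.pow {m s : ℕ} {g : k[X][X]} (hg : CA_PW m s g) (j : ℕ) :
    CA_PW m (s * j) (g ^ j) := by
  induction j with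
  | zero => simpa using CA_PW.one
  | succ j ih =>
    rw [pow_succ]
    exact ih.mul hg

theorem CA_PW.sum {m s : ℕ} {ι : Type} (S : Finset ι) (g : ι → k[X][X])
    (hg : ∀ i ∈ S, CA_PW m s (g i)) : CA_PW m s (∑ i ∈ S, g i) := by
  refine ⟨fun i hi => ?_, natDegree_sum_le_of_forall_le _ _ fun j hj => (hg j hj).2⟩
  rw [finsetSum_coeff]
  exact natDegree_sum_le_of_forall_le _ _ fun j hj => (hg j hj).1 i hi

theorem CA_lin {e : ℕ} {κ : k} {α : k[X]} (hα : α.natDegree ≤ e) :
    CA_PW e 1 (C (C κ) * X + C α : k[X][X]) := by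
  refine ⟨fun i hi => ?_, ?_⟩
  · rw [coeff_add, coeff_C_mul, coeff_X, coeff_C]
    rcases Nat.lt_or_ge i 1 with h | h
    · have h0 : i = 0 := by lia
      subst h0
      rw [if_neg (by lia), if_pos rfl, mul_zero, zero_add]
      simpa using hα
    · have h0 : i = 1 := by lia
      subst h0
      rw [if_pos rfl, if_neg (by lia), mul_one, add_zero]
      simp
  · refine (natDegree_add_le _ _).trans (max_le ?_ ?_)
    · refine natDegree_mul_le.trans ?_
      rw [natDegree_C, zero_add]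
      exact natDegree_X_le
    · simp

theorem CA_fib {f : k[X][X][X]} {r e : ℕ} (hdeg : f.natDegree = r) (hW : Bert.Wt3 e r f) {κ : k}
    {α : k[X]} (hα : α.natDegree ≤ e) : CA_PW e r (fib f κ α) := by
  unfold fib
  rw [eval_eq_sum_range, hdeg]
  refine CA_PW.sum _ _ fun j hj => ?_
  rw [Finset.mem_range] at hj
  have h1 : CA_PW e (r - j) (f.coeff j) := by
    refine ⟨fun i hi => ?_, ?_⟩
    · refine (hW.deg i j (by lia)).trans (Nat.mul_le_mul_left _ ?_)
      lia
    · rw [natDegree_le_iff_coeff_eq_zero]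
      intro i hi
      exact hW.zero i j (by lia)
  have h2 := h1.mul ((CA_lin (κ := κ) hα).pow j)
  rw [one_mul, Nat.sub_add_cancel (by lia)] at h2
  exact h2

/-- The plane curve, made monic, has weighted degree `e r` (`Bert.coeff_fib`, `Bert.Wt3_of_wt`). -/
theorem fib_wt {f : k[X][X][X]} {r d e : ℕ} (hdeg : f.natDegree = r) (hd : 1 ≤ d)
    (hwt : ∀ i j, (f.coeff j).coeff i ≠ 0 →
      ((f.coeff j).coeff i).natDegree + d * (i + j) ≤ d * r) (hr : 1 ≤ r) (hde : d ≤ e) {κ : k}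
    {α : k[X]} (hα : α.natDegree ≤ e) (ht : (fib f κ α).natDegree = r) :
    ∃ c : k, c ≠ 0 ∧ MPb197b4E.Wt e r (C (C c) * fib f κ α) := by
  have hW : Bert.Wt3 e r f := Bert.Wt3_of_wt hd hde hwt
  have h1 := CA_fib hdeg hW (κ := κ) hα
  obtain ⟨z, hz⟩ : ∃ z : k, (fib f κ α).coeff r = C z := ⟨_, (Bert.coeff_fib hdeg hW κ α).2⟩
  have hz0 : z ≠ 0 := by
    intro h
    have h2 : (fib f κ α).leadingCoeff = 0 := by
      rw [leadingCoeff, ht, hz, h, C_0]
    rw [leadingCoeff_eq_zero] at h2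
    rw [h2, natDegree_zero] at ht
    lia
  have hcoef : (C (C z⁻¹) * fib f κ α).coeff r = 1 := by
    rw [coeff_C_mul, hz, ← C_mul, inv_mul_cancel₀ hz0, C_1]
  have hdeg' : (C (C z⁻¹) * fib f κ α).natDegree = r := by
    refine le_antisymm ((natDegree_C_mul_le _ _).trans ht.le) (le_natDegree_of_ne_zero ?_)
    rw [hcoef]
    exact one_ne_zero
  refine ⟨z⁻¹, inv_ne_zero hz0, ⟨?_, hdeg', fun i hi => ?_⟩⟩
  · rw [Monic, leadingCoeff, hdeg', hcoef]
  · rw [coeff_C_mul]
    exact (natDegree_C_mul_le _ _).trans (h1.1 i hi)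

theorem CA_cut (f : k[X][X][X]) (κ : k) (α γ : k[X]) :
    cut f κ α γ = (f.eval (C (α + C κ * γ))).eval γ := by
  have h1 : ∀ g : k[X][X], (f.eval g).eval γ = f.eval₂ (evalRingHom γ) (g.eval γ) := by
    intro g
    have := eval₂_at_apply (p := f) (evalRingHom γ) g
    rw [coe_evalRingHom] at this
    exact this.symm
  unfold cut fib
  rw [h1, h1]
  congr 1
  simp
  ring

/-- Two curves through a block have the same cut. -/
theorem cut_eq {f : k[X][X][X]} {κ κ' : k} {α α' γ : k[X]} (h : α + C κ * γ = α' + C κ' * γ) :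
    cut f κ α γ = cut f κ' α' γ := by
  rw [CA_cut, CA_cut, h]

/-- The pencil of the curves through a split block with two points unramified on one of them:
`Bert.good_pencil_sep`, `Bert.unramified_fib`, `Bert.dY_fib`. -/
theorem pencil_link [IsAlgClosed k] {f : k[X][X][X]} {r d e : ℕ} (hf : Wt f r d) (hde : d < e)
    {E : Set (k × k[X])} {κ : k} {α γ : k[X]} (hs : Good f r e E κ α)
    (hγ : Spl f e (r * e) κ α γ) {a₁ a₂ : k} (ha : a₁ ≠ a₂) (h1 : (cut f κ α γ).eval a₁ = 0)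
    (h2 : (cut f κ α γ).eval a₂ = 0) (u1 : Unr (fib f κ α) a₁ (γ.eval a₁))
    (u2 : Unr (fib f κ α) a₂ (γ.eval a₂)) (a : k) :
    ∃ Bad : Finset k, Bad.card ≤ 2 ^ (r * e) * (2 * r) + r + 4 ∧ ∀ κ' ∉ Bad,
      Link f r e E κ α κ' (α + C κ * γ - C κ' * γ) a (γ.eval a) := by
  classical
  have hρ : (α + C κ * γ).natDegree ≤ e := by
    refine (natDegree_add_le _ _).trans (max_le hs.deg ?_)
    exact (natDegree_C_mul_le _ _).trans hγ.deg
  have hnum := hγ.num
  have hsep := hγ.sep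
  rw [CA_cut] at hnum hsep
  obtain ⟨B, hB, hBc⟩ := Bert.good_pencil_sep hf.monic hf.deg hf.irr (by have := hf.two; lia)
    hf.pos hde hf.wt hγ.deg hρ hnum hsep
  have key : ∀ a₀ : k, Unr (fib f κ α) a₀ (γ.eval a₀) → ∃ κ₀ : k, ∀ κ' ≠ κ₀,
      Unr (fib f κ' (α + C κ * γ - C κ' * γ)) a₀ (γ.eval a₀) := by
    intro a₀ u
    have h3 : (((derivative (f.eval (C (C (α.eval a₀ + κ * γ.eval a₀))))).eval
        (C (γ.eval a₀))).eval a₀ ≠ 0) ∨
        (((derivative f).eval (C (C (α.eval a₀ + κ * γ.eval a₀)))).eval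
          (C (γ.eval a₀))).eval a₀ ≠ 0 := by
      by_contra h
      push Not at h
      have h4 := Bert.dY_fib f κ α a₀ (γ.eval a₀) _ rfl
      rw [h.1, h.2, mul_zero, add_zero] at h4
      exact u h4
    obtain ⟨κ₀, hκ₀⟩ := Bert.unramified_fib f h3
    refine ⟨κ₀, fun κ' hκ' => hκ₀ κ' hκ' _ ?_⟩
    simp
  obtain ⟨κ₁, hκ₁⟩ := key a₁ u1
  obtain ⟨κ₂, hκ₂⟩ := key a₂ u2
  refine ⟨B ∪ {κ, κ₁, κ₂}, ?_, fun κ' hκ' => ?_⟩
  · refine (Finset.card_union_le _ _).trans ?_
    have h3 : ({κ, κ₁, κ₂} : Finset k).card ≤ 3 := Finset.card_le_three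
    lia
  · simp only [Finset.mem_union, Finset.mem_insert, Finset.mem_singleton, not_or] at hκ'
    obtain ⟨hB', hk0, hk1, hk2⟩ := hκ'
    obtain ⟨g1, g2, g3⟩ := hBc κ' hB'
    have un1 := hκ₁ κ' hk1
    have un2 := hκ₂ κ' hk2
    refine ⟨Ne.symm hk0, ⟨?_, Or.inl g3, g1, g2, ?_⟩, γ, rfl, by ring, hγ, a₁, a₂, ha, h1, h2,
      u1, u2, un1, un2⟩
    · refine (natDegree_sub_le _ _).trans (max_le hρ ?_)
      exact (natDegree_C_mul_le _ _).trans hγ.deg
    · intro h
      refine un1 ?_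
      rw [h]
      simp

/-- The unramified points of a block: the derivative has degree at most `e (r - 1)` on it. -/
theorem exists_unr {f : k[X][X]} {r e : ℕ} [IsAlgClosed k] (hr : 1 ≤ r) (he : 2 ≤ e)
    (hf : MPb197b4E.Wt e r f) {γ : k[X]} (hγ : γ.natDegree ≤ e) (hn : (f.eval γ).natDegree = e * r)
    (hs : (f.eval γ).Separable) (hd : (derivative f).eval γ ≠ 0) :
    ∃ a₁ a₂, a₁ ≠ a₂ ∧ (f.eval γ).eval a₁ = 0 ∧ (f.eval γ).eval a₂ = 0 ∧
      Unr f a₁ (γ.eval a₁) ∧ Unr f a₂ (γ.eval a₂) := by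
  classical
  have hdd : ((derivative f).eval γ).natDegree ≤ e * (r - 1) := by
    rw [eval_eq_sum_range]
    refine natDegree_sum_le_of_forall_le _ _ fun i hi => ?_
    by_cases hi' : i ≤ r - 1
    · rw [coeff_derivative]
      have h1 : (f.coeff (i + 1) * ((i : k[X]) + 1)).natDegree ≤ e * (r - (i + 1)) := by
        refine natDegree_mul_le.trans ?_
        have h2 : ((i : k[X]) + 1).natDegree = 0 := by
          have h3 : ((i : k[X]) + 1) = C ((i : k) + 1) := by
            rw [C_add, C_1, C_eq_natCast]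
          rw [h3, natDegree_C]
        rw [h2, add_zero]
        exact hf.wt (i + 1) (by lia)
      refine natDegree_mul_le.trans ((add_le_add h1 (natDegree_pow_le_of_le i hγ)).trans ?_)
      rw [mul_comm i e, ← mul_add]
      refine Nat.mul_le_mul_left _ ?_
      lia
    · have h1 : (derivative f).coeff i = 0 := by
        rw [coeff_derivative, coeff_eq_zero_of_natDegree_lt (by rw [hf.deg]; lia), zero_mul]
      rw [h1, zero_mul]
      simp
  have hroots : (f.eval γ).roots.toFinset.card = e * r := by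
    rw [Multiset.toFinset_card_of_nodup (nodup_roots hs),
      splits_iff_card_roots.1 (IsAlgClosed.splits _), hn]
  set S : Finset k := (f.eval γ).roots.toFinset \ ((derivative f).eval γ).roots.toFinset with hS
  have hScard : 1 < S.card := by
    have h1 := Finset.le_card_sdiff ((derivative f).eval γ).roots.toFinset
      (f.eval γ).roots.toFinset
    have h2 : ((derivative f).eval γ).roots.toFinset.card ≤ e * (r - 1) :=
      (Multiset.toFinset_card_le _).trans ((card_roots' _).trans hdd)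
    have h3 : e * (r - 1) + e = e * r := by
      have : r = (r - 1) + 1 := by lia
      conv_rhs => rw [this]
      ring
    rw [hroots] at h1
    lia
  obtain ⟨a₁, ha₁, a₂, ha₂, hne⟩ := Finset.one_lt_card.1 hScard
  have key : ∀ a ∈ S, (f.eval γ).eval a = 0 ∧ Unr f a (γ.eval a) := by
    intro a haS
    rw [hS, Finset.mem_sdiff, Multiset.mem_toFinset, Multiset.mem_toFinset,
      mem_roots hs.ne_zero, mem_roots hd] at haS
    refine ⟨haS.1, ?_⟩
    have h1 : fY f a (γ.eval a) = ((derivative f).eval γ).eval a := fY_eq f γ a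
    intro h2
    exact haS.2 (h1.symm.trans h2)
  exact ⟨a₁, a₂, hne, (key a₁ ha₁).1, (key a₂ ha₂).1, (key a₁ ha₁).2, (key a₂ ha₂).2⟩

end MPb197b4P
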