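import Pool.Agent.Lib.MP_b197b4_ntE.EE2
import Pool.Agent.Lib.MP_b197b4_ntE.EG1
import Pool.Agent.Lib.MP_b197b4_ntE.ED

/-!
# Leaf CB: the members through one point which are not separable are rare
-/

set_option autoImplicit false

noncomputable section

namespace MPb197b4E

open Polynomial Finset

/-- If one member is separable, then `R` is separable over the field of rational functions. -/
theorem CB_generic {F : Type} [Field F] {N : ℕ} {R : F[X][X]} (hm : R.Monic) (hN : R.natDegree = N)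
    {t : F} (ht : (MPb197b4W.spec R t).Separable) :
    (R.map (algebraMap F[X] (RatFunc F))).Separable := by
  set r : F[X] := resultant R (derivative R) N (N - 1) with hr
  have hmap : ∀ {B : Type} [CommRing B] [Nontrivial B] (φ : F[X] →+* B),
      IsUnit (φ r) ↔ (R.map φ).Separable := by
    intro B _ _ φ
    rw [← MPb197b4W.isUnit_res_iff (hm.map φ) ((hm.natDegree_map φ).trans hN), derivative_map,
      resultant_map_map]
  have h0 : r ≠ 0 := by
    intro h
    have h1 := (hmap (evalRingHom t)).2 ht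
    rw [h, map_zero] at h1
    exact not_isUnit_zero h1
  refine (hmap (algebraMap F[X] (RatFunc F))).1 (IsUnit.mk0 _ ?_)
  intro h
  exact h0 ((FaithfulSMul.algebraMap_injective F[X] (RatFunc F)) (h.trans (map_zero _).symm))

theorem CB_unit_mul {F : Type} [Field F] {c : F} (hc : c ≠ 0) (p : F[X]) :
    (C c * p).Separable ↔ p.Separable := by
  constructor
  · intro h
    exact h.of_mul_right
  · intro h
    exact Separable.unit_mul (isUnit_C.2 (IsUnit.mk0 c hc)) h

open Classical in
/-- `IsPencil` with the trivial divisor: a line through a separable member has at most `2 N D` members which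
are not separable (`MPb197b4W.bad_points`). -/
theorem line_bad (m D : ℕ) {F k : Type} [Field F] [Fintype F] [Field k] [IsAlgClosed k]
    [Algebra F k] {f : F[X][X]} (hf : Wt m D f) {q h : F[X]} (hq : q.natDegree ≤ m)
    (hh : h.natDegree < m) (hc : (topPol m D f).eval (q.coeff m) ≠ 0) (hs : (f.eval q).Separable) :
    ((univ : Finset F).filter fun t => ¬ (f.eval (q + C t * h)).Separable).card ≤ 2 * (m * D) * D := by
  obtain ⟨R, hR⟩ := exists_pencil (f := f) (q := q) (h := h) (G := 1) (one_dvd _) (one_dvd _) hc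
  obtain ⟨hRm, hRd⟩ := hR.monic hf hq hh monic_one rfl hc
  rw [natDegree_one, add_zero] at hRd
  have hspec : ∀ t : F, (f.eval (q + C t * h)).Separable ↔ (MPb197b4W.spec R t).Separable := by
    intro t
    rw [hR.spec t, one_mul, CB_unit_mul hc]
    rfl
  have h0 : (MPb197b4W.spec R 0).Separable := by
    rw [← hspec 0, C_0, zero_mul, add_zero]
    exact hs
  refine MPb197b4W.bad_points hRm hRd (hR.deg_le hf.deg.le one_ne_zero hc)
    (CB_generic hRm hRd h0) _ ?_
  intro t ht
  rw [Finset.mem_filter] at ht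
  rw [← hspec t]
  exact ht.2

/-- A separable member through `(a, b)`: `generic_member` (file ED2 of helper64) for the marked points
`(a₁, b₁)` (unramified) and `(a, b)`. -/
theorem exists_sep (m D : ℕ) (hm : 5 ≤ m) : ∃ c₀ : ℕ, ∀ (F k : Type) [Field F] [Fintype F] [Field k]
    [IsAlgClosed k] [Algebra F k] (f : F[X][X]) (a b a₁ b₁ : F), c₀ < Fintype.card F → Wt m D f →
    Irreducible (f.map (mapRingHom (algebraMap F k))) → evalEval a b f = 0 →
    (fX f a b ≠ 0 ∨ fY f a b ≠ 0) → a₁ ≠ a → evalEval a₁ b₁ f = 0 → fY f a₁ b₁ ≠ 0 →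
    ∀ μ : F, (topPol m D f).eval μ ≠ 0 →
    ∃ q : F[X], q.natDegree ≤ m ∧ q.coeff m = μ ∧ q.eval a = b ∧ (f.eval q).Separable := by
  classical
  obtain ⟨c₀, h0⟩ := generic_member m D
  refine ⟨c₀, fun F k _ _ _ _ _ f a b a₁ b₁ hcard hf hirr hab hreg hne hab1 hram μ hμ => ?_⟩
  -- the interpolating polynomial
  have hda : a₁ - a ≠ 0 := sub_ne_zero.2 hne
  set s : F := ((b₁ - μ * a₁ ^ m) - (b - μ * a ^ m)) / (a₁ - a) with hs
  set q₀ : F[X] := C μ * X ^ m + (C s * (X - C a) + C (b - μ * a ^ m)) with hq₀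
  have hqa : q₀.eval a = b := by
    rw [hq₀]
    simp
  have hqa1 : q₀.eval a₁ = b₁ := by
    rw [hq₀]
    simp only [eval_add, eval_mul, eval_C, eval_pow, eval_X, eval_sub]
    rw [hs, div_mul_cancel₀ _ hda]
    ring
  have hlow : (C s * (X - C a) + C (b - μ * a ^ m) : F[X]).natDegree < m := by
    refine lt_of_le_of_lt (natDegree_add_le_of_degree_le (n := 1) ?_ ?_) (by omega)
    · refine natDegree_mul_le.trans ?_
      rw [natDegree_C, natDegree_X_sub_C, zero_add]
    · rw [natDegree_C]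
      exact Nat.zero_le _
  have hqd : q₀.natDegree ≤ m := by
    refine natDegree_add_le_of_degree_le (natDegree_C_mul_X_pow_le μ m) hlow.le
  have hqc : q₀.coeff m = μ := by
    rw [hq₀, coeff_add, coeff_C_mul_X_pow, if_pos rfl, coeff_eq_zero_of_natDegree_lt hlow, add_zero]
  have hT : a₁ ∉ ({a} : Finset F) := by
    rw [Finset.mem_singleton]
    exact hne
  have hG1 : GG a₁ 1 {a} = (X - C a₁) * (X - C a) := by
    rw [GG, pow_one, Finset.prod_singleton]
  have hcop : IsCoprime (X - C a₁ : F[X]) (X - C a) :=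
    pairwise_coprime_X_sub_C Function.injective_id hne
  have hM : Marked f a₁ 1 {a} q₀ := by
    refine ⟨le_rfl, hT, ?_, ?_, ?_⟩
    · rw [hG1]
      refine hcop.mul_dvd ?_ ?_
      · rw [dvd_iff_isRoot, IsRoot.def, eval_eval_eq, hqa1]
        exact hab1
      · rw [dvd_iff_isRoot, IsRoot.def, eval_eval_eq, hqa]
        exact hab
    · rw [hqa1]
      exact hram
    · intro x hx
      rw [Finset.mem_singleton] at hx
      rw [hx, hqa]
      exact hreg
  obtain ⟨w, S, hw, hS, hSs, hSn⟩ := h0 F k f a₁ 1 {a} q₀ hcard hf hirr hM hqd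
    (by rw [hqc]; exact hμ) (by rw [Finset.card_singleton]; omega)
  have hGd : (GG a₁ 1 {a}).natDegree = 2 := by
    rw [(GG_monic a₁ 1 {a}).2, Finset.card_singleton]
  have hGw : (GG a₁ 1 {a} * w).natDegree < m := by
    refine lt_of_le_of_lt natDegree_mul_le ?_
    rw [hGd]
    omega
  refine ⟨q₀ + GG a₁ 1 {a} * w, natDegree_add_le_of_degree_le hqd hGw.le, ?_, ?_, ?_⟩
  · rw [coeff_add, hqc, coeff_eq_zero_of_natDegree_lt hGw, add_zero]
  · rw [eval_add, eval_mul, hqa, (GG_eval a₁ 1 {a} le_rfl a).2 (Or.inr (Finset.mem_singleton_self a)),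
      zero_mul, add_zero]
  · have hnd : ∀ x : F, S.eval x ≠ 0 → IsCoprime (X - C x : F[X]) S := by
      intro x hx
      rw [(irreducible_X_sub_C x).coprime_iff_not_dvd]
      intro h
      exact hx (dvd_iff_isRoot.1 h)
    rw [hS, hG1]
    refine Separable.mul (Separable.mul (separable_X_sub_C) (separable_X_sub_C) hcop) hSs ?_
    exact IsCoprime.mul_left (hnd a₁ (hSn a₁ (Or.inl rfl)))
      (hnd a (hSn a (Or.inr (Finset.mem_singleton_self a))))

/-- The members through `(a, b)` with top coefficient `μ` are `CB_A a b μ m + (X - a) w`, `w` of degree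
`< m - 1`. -/
def CB_A {F : Type} [Field F] (a b μ : F) (m : ℕ) : F[X] :=
  C b + (X - C a) * (C μ * X ^ (m - 1))

theorem CB_A_coeff {F : Type} [Field F] [Fintype F] (a b μ : F) {m : ℕ} (hm : 5 ≤ m) {w : F[X]}
    (hw : w ∈ pol F (m - 1)) : (CB_A a b μ m + (X - C a) * w).coeff m = μ := by
  obtain ⟨n, rfl⟩ : ∃ n, m = n + 1 := ⟨m - 1, by omega⟩
  rw [EE2_mem] at hw
  unfold CB_A
  rw [Nat.add_sub_cancel] at hw ⊢
  rw [coeff_add, coeff_add, coeff_C, if_neg (Nat.succ_ne_zero _), sub_mul, sub_mul, coeff_sub, coeff_sub,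
    coeff_X_mul, coeff_X_mul, coeff_C_mul, coeff_C_mul, coeff_C_mul, coeff_C_mul, coeff_X_pow_self,
    coeff_X_pow, if_neg (Nat.succ_ne_self _), hw n le_rfl, hw (n + 1) (Nat.le_succ _)]
  ring

theorem CB_A_natDegree {F : Type} [Field F] (a b μ : F) {m : ℕ} (hm : 5 ≤ m) :
    (CB_A a b μ m).natDegree ≤ m := by
  unfold CB_A
  refine (natDegree_add_le _ _).trans (max_le ?_ ?_)
  · rw [natDegree_C]
    exact Nat.zero_le _
  · refine natDegree_mul_le.trans ?_
    have h1 := natDegree_X_sub_C_le a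
    have h2 := natDegree_C_mul_X_pow_le μ (m - 1)
    omega

theorem CB_mul_natDegree {F : Type} [Field F] [Fintype F] (a : F) {m : ℕ} (hm : 5 ≤ m) {w : F[X]}
    (hw : w ∈ pol F (m - 1)) : ((X - C a) * w).natDegree < m := by
  have h1 : w.natDegree ≤ m - 2 := by
    rw [EE2_mem] at hw
    exact natDegree_le_iff_coeff_eq_zero.2 fun n hn => hw n (by omega)
  have h2 := natDegree_X_sub_C_le a
  have h3 := natDegree_mul_le (p := X - C a) (q := w)
  omega

theorem CB_natDegree {F : Type} [Field F] [Fintype F] (a b μ : F) {m : ℕ} (hm : 5 ≤ m) {w : F[X]}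
    (hw : w ∈ pol F (m - 1)) : (CB_A a b μ m + (X - C a) * w).natDegree ≤ m :=
  (natDegree_add_le _ _).trans (max_le (CB_A_natDegree a b μ hm) (CB_mul_natDegree a hm hw).le)

/-- A member of degree `≤ m` through `(a, b)` in the form `CB_A a b μ m + (X - a) w`. -/
theorem CB_exists {F : Type} [Field F] [Fintype F] {a b μ : F} {m : ℕ} (hm : 5 ≤ m) {q : F[X]}
    (hq : q.natDegree ≤ m) (hc : q.coeff m = μ) (ha : q.eval a = b) :
    ∃ w ∈ pol F (m - 1), q = CB_A a b μ m + (X - C a) * w := by
  have h1 : (X - C a) ∣ q - CB_A a b μ m := by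
    rw [dvd_iff_isRoot, IsRoot.def]
    unfold CB_A
    rw [eval_sub, eval_add, eval_mul, eval_sub, eval_X, eval_C, eval_C, sub_self, zero_mul, add_zero,
      ha, sub_self]
  obtain ⟨w, hw⟩ := h1
  refine ⟨w, ?_, ?_⟩
  · rw [EE2_mem]
    have h2 : w.natDegree ≤ m - 1 := by
      by_cases hw0 : w = 0
      · rw [hw0, natDegree_zero]
        exact Nat.zero_le _
      · have h3 : (q - CB_A a b μ m).natDegree ≤ m :=
          (natDegree_sub_le _ _).trans (max_le hq (CB_A_natDegree a b μ hm))
        rw [hw, natDegree_mul (X_sub_C_ne_zero a) hw0, natDegree_X_sub_C] at h3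
        omega
    intro n hn
    rcases Nat.lt_or_ge (m - 1) n with h3 | h3
    · exact coeff_eq_zero_of_natDegree_lt (by omega)
    · have h4 : n = m - 1 := le_antisymm h3 hn
      subst h4
      obtain ⟨n, rfl⟩ : ∃ n, m = n + 1 := ⟨m - 1, by omega⟩
      have h5 := congrArg (fun p : F[X] => p.coeff (n + 1)) hw
      have h6 : (CB_A a b μ (n + 1)).coeff (n + 1) = μ := by
        have h7 := CB_A_coeff a b μ hm (w := 0) (by rw [EE2_mem]; intro j _; exact coeff_zero j)
        rwa [mul_zero, add_zero] at h7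
      have h8 : w.coeff (n + 1) = 0 := coeff_eq_zero_of_natDegree_lt (by omega)
      rw [coeff_sub, hc, h6, sub_self, sub_mul, coeff_sub, coeff_X_mul, coeff_C_mul, h8, mul_zero,
        sub_zero] at h5
      exact h5.symm
  · rw [← hw]
    ring

open Classical in
theorem CB_sum {F : Type} [Field F] [Fintype F] {m : ℕ} (hm : 5 ≤ m) (a b : F) (P : F[X] → Prop) :
    ((pol F (m + 1)).filter fun q => q.eval a = b ∧ P q).card =
      ∑ μ : F, ((pol F (m - 1)).filter fun w => P (CB_A a b μ m + (X - C a) * w)).card := by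
  have h1 : ((pol F (m + 1)).filter fun q => q.eval a = b ∧ P q) =
      (pol F (m + 1)).filter fun q => (X - C a) ∣ q - C b ∧ P q := by
    refine filter_congr fun q _ => ?_
    rw [dvd_iff_isRoot, IsRoot.def, eval_sub, eval_C, sub_eq_zero]
  rw [h1, sum_coset (monic_X_sub_C a) (natDegree_X_sub_C a) (by omega)
    (by rw [natDegree_C]; omega) P]
  rfl

open Classical in
theorem CB_lines (m D : ℕ) (hm : 5 ≤ m) {F k : Type} [Field F] [Fintype F] [Field k] [IsAlgClosed k]
    [Algebra F k] {f : F[X][X]} (hf : Wt m D f) {a b μ : F} {w₀ : F[X]}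
    (h₀ : w₀ ∈ pol F (m - 1)) (hc : (topPol m D f).eval μ ≠ 0)
    (hs : (f.eval (CB_A a b μ m + (X - C a) * w₀)).Separable) :
    ((pol F (m - 1)).filter fun w => ¬ (f.eval (CB_A a b μ m + (X - C a) * w)).Separable).card ≤
      2 * (2 * (m * D) * D) * Fintype.card F ^ (m - 2) := by
  obtain ⟨P, hP⟩ : ∃ P : F[X] → Prop,
      ∀ w, P w ↔ ¬ (f.eval (CB_A a b μ m + (X - C a) * w)).Separable := ⟨_, fun w => Iff.rfl⟩
  have h1 := sum_lines P h₀ (fun h => (hP w₀).1 h hs)
  have h2 : ∀ v ∈ pol F (m - 1), ((univ : Finset F).filter fun t =>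
      P (w₀ + C t * v)).card ≤ 2 * (m * D) * D := by
    intro v hv
    have h3 := line_bad (k := k) m D hf (CB_natDegree a b μ hm h₀) (CB_mul_natDegree a hm hv)
      (by rw [CB_A_coeff a b μ hm h₀]; exact hc) hs
    refine le_trans (card_le_card ?_) h3
    intro t ht
    rw [mem_filter, hP] at ht
    rw [mem_filter]
    refine ⟨ht.1, ?_⟩
    rw [show CB_A a b μ m + (X - C a) * w₀ + C t * ((X - C a) * v) =
      CB_A a b μ m + (X - C a) * (w₀ + C t * v) by ring]
    exact ht.2
  have h13 : ((pol F (m - 1)).filter fun w =>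
      ¬ (f.eval (CB_A a b μ m + (X - C a) * w)).Separable).card ≤ ((pol F (m - 1)).filter P).card := by
    refine card_le_card fun w hw => ?_
    rw [mem_filter] at hw ⊢
    exact ⟨hw.1, (hP w).2 hw.2⟩
  refine h13.trans ?_
  have h4 := sum_le_card_nsmul _ _ _ h2
  rw [h1, card_pol, smul_eq_mul] at h4
  have h5 : 2 ≤ Fintype.card F := Fintype.one_lt_card
  obtain ⟨Q, hQ⟩ : ∃ Q, Fintype.card F = Q + 1 := ⟨Fintype.card F - 1, by omega⟩
  have h6 : m - 1 = (m - 2) + 1 := by omega
  generalize ((pol F (m - 1)).filter P).card = N at h4 ⊢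
  rw [h6, pow_succ] at h4
  generalize 2 * (m * D) * D = K at h4 ⊢
  generalize Fintype.card F ^ (m - 2) = B at h4 ⊢
  rw [hQ, Nat.add_sub_cancel] at h4
  have hQ1 : 1 ≤ Q := by omega
  by_contra h7
  rw [not_le] at h7
  have h8 : Q * (2 * K * B + 1) ≤ Q * N := Nat.mul_le_mul_left Q h7
  have h9 : Q * (2 * K * B + 1) ≤ B * (Q + 1) * K := h8.trans h4
  have h10 : B * (Q + 1) * K ≤ B * (2 * Q) * K :=
    Nat.mul_le_mul_right _ (Nat.mul_le_mul_left _ (by omega))
  have h11 : B * (2 * Q) * K = Q * (2 * K * B) := by ring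
  have h12 : Q * (2 * K * B + 1) = Q * (2 * K * B) + Q := by ring
  omega

/-- The derivative with respect to `Y` is not zero and has degree `≤ D`. -/
theorem CB_der {m D : ℕ} {F : Type} [Field F] {f : F[X][X]} (hf : Wt m D f) {a₁ b₁ : F}
    (h : fY f a₁ b₁ ≠ 0) : derivative f ≠ 0 ∧ (derivative f).natDegree ≤ D := by
  constructor
  · intro h0
    apply h
    unfold fY
    rw [h0, evalEval_zero]
  · refine (natDegree_derivative_le f).trans ?_
    rw [hf.deg]
    exact Nat.sub_le _ _

open Classical in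
theorem CB_roots {D : ℕ} {F : Type} [Field F] [Fintype F] {m : ℕ} {g : F[X][X]}
    (hg : g ≠ 0 ∧ g.natDegree ≤ D) (a b μ : F) :
    ((pol F (m - 1)).filter fun w => ¬ g.eval (CB_A a b μ m + (X - C a) * w) ≠ 0).card ≤ D := by
  have h1 : ((pol F (m - 1)).filter fun w => ¬ g.eval (CB_A a b μ m + (X - C a) * w) ≠ 0).card ≤
      g.roots.toFinset.card := by
    refine card_le_card_of_injOn (fun w => CB_A a b μ m + (X - C a) * w) ?_ ?_
    · intro w hw
      have h2 := (mem_filter.1 (mem_coe.1 hw)).2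
      rw [not_not] at h2
      rw [mem_coe, Multiset.mem_toFinset, mem_roots hg.1]
      exact h2
    · intro w _ w' _ h
      exact mul_left_cancel₀ (X_sub_C_ne_zero a) (add_left_cancel h)
  exact h1.trans ((Multiset.toFinset_card_le _).trans ((card_roots' _).trans hg.2))

open Classical in
/-- The members through `(a, b)` which are not good. `f_top(μ) = 0`: at most `D` values `μ`; for the others
`exists_sep` and the lines through the separable member (`sum_lines`, `line_bad`); `f_Y(X, q) = 0` for at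
most `D` polynomials `q`. -/
theorem count_bad (m D : ℕ) (hm : 5 ≤ m) : ∃ c : ℕ, ∀ (F k : Type) [Field F] [Fintype F] [Field k]
    [IsAlgClosed k] [Algebra F k] (f : F[X][X]) (a b a₁ b₁ : F), c < Fintype.card F → Wt m D f →
    Irreducible (f.map (mapRingHom (algebraMap F k))) → evalEval a b f = 0 →
    (fX f a b ≠ 0 ∨ fY f a b ≠ 0) → a₁ ≠ a → evalEval a₁ b₁ f = 0 → fY f a₁ b₁ ≠ 0 →
    ((pol F (m + 1)).filter fun q => q.eval a = b ∧ ¬ ((f.eval q).natDegree = m * D ∧
      (f.eval q).Separable ∧ (derivative f).eval q ≠ 0)).card ≤ c * Fintype.card F ^ (m - 1) := by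
  obtain ⟨c₀, hc₀⟩ := exists_sep m D hm
  refine ⟨c₀ + (2 * (2 * (m * D) * D) + D + D), ?_⟩
  intro F k _ _ _ _ _ f a b a₁ b₁ hQ hf hirr hab hreg ha₁ hab₁ hY
  have hD := CB_der hf hY
  obtain ⟨P, hP⟩ : ∃ P : F[X] → Prop, ∀ q, P q ↔ ¬ ((f.eval q).natDegree = m * D ∧
      (f.eval q).Separable ∧ (derivative f).eval q ≠ 0) := ⟨_, fun q => Iff.rfl⟩
  have hmu : ∀ μ : F, (topPol m D f).eval μ ≠ 0 →
      ((pol F (m - 1)).filter fun w => P (CB_A a b μ m + (X - C a) * w)).card ≤
      2 * (2 * (m * D) * D) * Fintype.card F ^ (m - 2) + D := by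
    intro μ hμ
    obtain ⟨q, hqm, hqc, hqa, hqs⟩ := hc₀ F k f a b a₁ b₁ (by omega) hf hirr hab hreg ha₁ hab₁ hY μ hμ
    obtain ⟨w₀, hw₀, hqw⟩ := CB_exists hm hqm hqc hqa
    rw [hqw] at hqs
    have h1 := CB_lines (k := k) m D hm hf hw₀ hμ hqs
    have h2 := CB_roots (m := m) hD a b μ
    refine le_trans (card_le_card ?_) ((card_union_le _ _).trans (Nat.add_le_add h1 h2))
    intro w hw
    rw [mem_filter, hP] at hw
    rw [mem_union, mem_filter, mem_filter]
    by_contra h3
    rw [not_or, not_and, not_not, not_and, not_not] at h3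
    refine hw.2 ⟨?_, h3.1 hw.1, h3.2 hw.1⟩
    have hAm : (CB_A a b μ m + (X - C a) * w).natDegree ≤ m := CB_natDegree a b μ hm hw.1
    have h4 := eval_wt hf hAm
    refine natDegree_eq_of_le_of_coeff_ne_zero h4.1 ?_
    rw [h4.2, CB_A_coeff a b μ hm hw.1]
    exact hμ
  have hbad : ((univ : Finset F).filter fun μ => (topPol m D f).eval μ = 0).card ≤ D := by
    have h1 := topPol_monic hf
    refine le_trans (card_le_card (t := (topPol m D f).roots.toFinset) ?_) ?_
    · intro μ hμ
      rw [mem_filter] at hμ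
      rw [Multiset.mem_toFinset, mem_roots h1.1.ne_zero]
      exact hμ.2
    · refine (Multiset.toFinset_card_le _).trans ((card_roots' _).trans ?_)
      rw [h1.2]
  have hsum : ((pol F (m + 1)).filter fun q => q.eval a = b ∧ ¬ ((f.eval q).natDegree = m * D ∧
      (f.eval q).Separable ∧ (derivative f).eval q ≠ 0)).card ≤
      ((pol F (m + 1)).filter fun q => q.eval a = b ∧ P q).card := by
    refine card_le_card fun q hq => ?_
    rw [mem_filter] at hq ⊢
    exact ⟨hq.1, hq.2.1, (hP q).2 hq.2.2⟩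
  refine hsum.trans ?_
  rw [CB_sum hm a b P, ← sum_filter_add_sum_filter_not univ fun μ => (topPol m D f).eval μ = 0]
  have hone : 1 ≤ Fintype.card F := Fintype.card_pos
  have hm1 : m - 1 = (m - 2) + 1 := by omega
  have e1 : ∑ μ ∈ (univ : Finset F).filter fun μ => (topPol m D f).eval μ = 0,
      ((pol F (m - 1)).filter fun w => P (CB_A a b μ m + (X - C a) * w)).card ≤
      D * Fintype.card F ^ (m - 1) := by
    refine (sum_le_card_nsmul _ _ (Fintype.card F ^ (m - 1)) fun μ _ => ?_).trans ?_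
    · refine (card_filter_le _ _).trans ?_
      rw [card_pol]
    · rw [smul_eq_mul]
      exact Nat.mul_le_mul_right _ hbad
  have e2 : ∑ μ ∈ (univ : Finset F).filter fun μ => ¬ (topPol m D f).eval μ = 0,
      ((pol F (m - 1)).filter fun w => P (CB_A a b μ m + (X - C a) * w)).card ≤
      Fintype.card F * (2 * (2 * (m * D) * D) * Fintype.card F ^ (m - 2) + D) := by
    refine (sum_le_card_nsmul _ _ (2 * (2 * (m * D) * D) * Fintype.card F ^ (m - 2) + D)
      fun μ hμ => hmu μ (mem_filter.1 hμ).2).trans ?_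
    rw [smul_eq_mul]
    exact Nat.mul_le_mul_right _ (card_filter_le _ _)
  refine (Nat.add_le_add e1 e2).trans ?_
  have e3 : Fintype.card F * (2 * (2 * (m * D) * D) * Fintype.card F ^ (m - 2) + D) ≤
      (2 * (2 * (m * D) * D) + D) * Fintype.card F ^ (m - 1) := by
    have e4 : Fintype.card F ≤ Fintype.card F ^ (m - 1) := by
      rw [hm1]
      exact Nat.le_self_pow (Nat.succ_ne_zero _) _
    have e5 : Fintype.card F * (2 * (2 * (m * D) * D) * Fintype.card F ^ (m - 2)) =
        2 * (2 * (m * D) * D) * Fintype.card F ^ (m - 1) := by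
      rw [hm1, pow_succ]
      ring
    rw [mul_add, e5, add_mul]
    have e6 : Fintype.card F * D ≤ D * Fintype.card F ^ (m - 1) := by
      rw [mul_comm]
      exact Nat.mul_le_mul_left _ e4
    omega
  refine (Nat.add_le_add_left e3 _).trans ?_
  rw [← add_mul]
  refine Nat.mul_le_mul_right _ ?_
  omega

end MPb197b4E
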