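import Pool.Agent.Lib.MP_b197b4_ntC.CA
import Pool.Agent.Lib.MP_b197b4_ntC.CB

/-!
# Leaf CC: the curves through one point which are not linked to a given curve are rare
-/

set_option autoImplicit false

noncomputable section

namespace MPb197b4P

open Polynomial Finset MPb197b4E

/-- the base change -/
def bc3 (F k : Type) [Field F] [Field k] [Algebra F k] (f : F[X][X][X]) : k[X][X][X] :=
  f.map (mapRingHom (mapRingHom (algebraMap F k)))

/-- A curve of the family over `F` through `(a, b, α(a) + κ b)`. -/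
def thru (F : Type) [Field F] [Fintype F] (e : ℕ) (a b c : F) : Finset (F × F[X]) := by
  classical
  exact ((univ : Finset F) ×ˢ pol F (e + 1)).filter fun s => s.2.eval a + s.1 * b = c

theorem card_thru (F : Type) [Field F] [Fintype F] (e : ℕ) (a b c : F) :
    (thru F e a b c).card = Fintype.card F ^ (e + 1) := by
  classical
  unfold thru
  rw [card_filter, sum_product]
  have h1 : ∀ κ : F, ∑ α ∈ pol F (e + 1), (if α.eval a + κ * b = c then 1 else 0) =
      Fintype.card F ^ e := by
    intro κ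
    rw [← card_filter, ← card_eval a (c - κ * b)]
    congr 1
    ext α
    rw [mem_filter, mem_filter, eq_sub_iff_add_eq]
  rw [sum_congr rfl fun κ _ => h1 κ, sum_const, card_univ, smul_eq_mul, pow_succ']

/-- The fibre over `F` and over `k`. -/
theorem fib_map (F k : Type) [Field F] [Field k] [Algebra F k] (f : F[X][X][X]) (κ : F) (α : F[X]) :
    fib (bc3 F k f) (algebraMap F k κ) (α.map (algebraMap F k)) =
      (fib f κ α).map (mapRingHom (algebraMap F k)) := by
  unfold fib bc3
  rw [← eval_map_map (mapRingHom (algebraMap F k)) f (C (C κ) * X + C α)]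
  congr 1
  rw [Polynomial.map_add, Polynomial.map_mul, map_C, map_C, map_X, coe_mapRingHom, map_C]

theorem CC_mem_pol {F : Type} [Field F] [Fintype F] {e : ℕ} {w : F[X]} :
    w ∈ pol F (e + 1) ↔ w.natDegree ≤ e := by
  rw [mem_pol, degree_lt_iff_coeff_zero, natDegree_le_iff_coeff_eq_zero]
  exact Iff.rfl

/-- One split block: all but a bounded number of the curves through it are linked. -/
theorem CC_block {F k : Type} [Field F] [Field k] [IsAlgClosed k] [Algebra F k]
    {f : F[X][X][X]} {r d e : ℕ} (hr : 2 ≤ r) (he : 5 ≤ e) {E : Set (k × k[X])} {κ : F}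
    {α : F[X]} {c : F} (hc : c ≠ 0) (hw : MPb197b4E.Wt e r (C (C c) * fib f κ α))
    (hf : Wt (bc3 F k f) r d) (hde : d < e)
    (hs : Good (bc3 F k f) r e E (algebraMap F k κ) (α.map (algebraMap F k)))
    {γ : F[X]} (hγ : γ.natDegree ≤ e)
    (h1 : ((C (C c) * fib f κ α).eval γ).natDegree = e * r)
    (h2 : ((C (C c) * fib f κ α).eval γ).Separable)
    (h3 : (derivative (C (C c) * fib f κ α)).eval γ ≠ 0) (a : F) :
    ∃ Bad : Finset k, Bad.card ≤ 2 ^ (r * e) * (2 * r) + r + 4 ∧
      ∀ κ' : F, algebraMap F k κ' ∉ Bad → Link (bc3 F k f) r e E (algebraMap F k κ)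
        (α.map (algebraMap F k)) (algebraMap F k κ') ((α + C κ * γ - C κ' * γ).map (algebraMap F k))
        (algebraMap F k a) (algebraMap F k (γ.eval a)) := by
  set φ := algebraMap F k with hφ
  have hφi : Function.Injective φ := φ.injective
  set g : F[X][X] := C (C c) * fib f κ α with hg
  have hφc : φ c ≠ 0 := (map_ne_zero φ).2 hc
  -- the curve over `k`
  have hgk : g.map (mapRingHom φ) = C (C (φ c)) * fib (bc3 F k f) (φ κ) (α.map φ) := by
    rw [fib_map, hg, Polynomial.map_mul, map_C, coe_mapRingHom, map_C]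
  have hwk : MPb197b4E.Wt e r (g.map (mapRingHom φ)) := (hw.map φ).1
  have hcut : C (φ c) * cut (bc3 F k f) (φ κ) (α.map φ) (γ.map φ) = (g.eval γ).map φ := by
    rw [← eval_map_map φ g γ, hgk, eval_mul, eval_C]
    rfl
  have hder : (derivative (g.map (mapRingHom φ))).eval (γ.map φ) = ((derivative g).eval γ).map φ := by
    rw [derivative_map, eval_map_map]
  have hcutdeg : (cut (bc3 F k f) (φ κ) (α.map φ) (γ.map φ)).natDegree = r * e := by
    have h4 := congrArg natDegree hcut
    rw [natDegree_C_mul hφc, natDegree_map_eq_of_injective hφi, h1] at h4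
    rw [h4, mul_comm]
  have hcutsep : (cut (bc3 F k f) (φ κ) (α.map φ) (γ.map φ)).Separable := by
    have h4 : ((g.eval γ).map φ).Separable := h2.map
    rw [← hcut] at h4
    exact h4.of_mul_right
  have hspl : Spl (bc3 F k f) e (r * e) (φ κ) (α.map φ) (γ.map φ) :=
    ⟨by rw [natDegree_map_eq_of_injective hφi]; exact hγ, hcutdeg, hcutsep⟩
  obtain ⟨a₁, a₂, hne, hz1, hz2, hu1, hu2⟩ := exists_unr (f := g.map (mapRingHom φ))
    (γ := γ.map φ) (by omega) (by omega) hwk
    (by rw [natDegree_map_eq_of_injective hφi]; exact hγ)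
    (by rw [eval_map_map, natDegree_map_eq_of_injective hφi, h1])
    (by rw [eval_map_map]; exact h2.map)
    (by rw [hder]; exact (Polynomial.map_ne_zero_iff hφi).2 h3)
  have hz : ∀ x, ((g.map (mapRingHom φ)).eval (γ.map φ)).eval x = 0 →
      (cut (bc3 F k f) (φ κ) (α.map φ) (γ.map φ)).eval x = 0 := by
    intro x hx
    rw [eval_map_map, ← hcut, eval_mul, eval_C] at hx
    exact (mul_eq_zero.1 hx).resolve_left hφc
  have hu : ∀ x y, Unr (g.map (mapRingHom φ)) x y →
      Unr (fib (bc3 F k f) (φ κ) (α.map φ)) x y := by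
    intro x y hx h0
    refine hx ?_
    rw [hgk, derivative_mul, derivative_C, zero_mul, zero_add, eval_mul, eval_mul, eval_C, eval_C,
      h0, mul_zero]
  obtain ⟨Bad, hB, hlink⟩ := pencil_link hf hde hs hspl hne (hz _ hz1) (hz _ hz2) (hu _ _ hu1)
    (hu _ _ hu2) (φ a)
  refine ⟨Bad, hB, fun κ' hκ' => ?_⟩
  have h5 := hlink (φ κ') hκ'
  rw [eval_map_apply] at h5
  have h6 : (α + C κ * γ - C κ' * γ).map φ =
      α.map φ + C (φ κ) * γ.map φ - C (φ κ') * γ.map φ := by
    rw [Polynomial.map_sub, Polynomial.map_add, Polynomial.map_mul, Polynomial.map_mul, map_C, map_C]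
  rw [h6]
  exact h5

open Classical in
/-- `(κ', α') ↔ (γ, κ')`, `γ = (α - α') / (κ' - κ)`: the bad `γ` are at most `c Q ^ (e - 1)` (`count_bad`
for `fib f κ α` made monic), for the other `γ` all but a bounded number of the `κ'` are fine (`exists_unr`,
`pencil_link`); `κ' = κ`: `Q ^ e`. -/
theorem count_link (r e : ℕ) (hr : 2 ≤ r) (he : 5 ≤ e) : ∃ c : ℕ, ∀ (F k : Type) [Field F] [Fintype F]
    [Field k] [IsAlgClosed k] [Algebra F k] (f : F[X][X][X]) (d : ℕ) (E : Set (k × k[X])) (κ : F)
    (α : F[X]) (a b a₁ b₁ : F), c < Fintype.card F → Wt (bc3 F k f) r d → d < e →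
    Good (bc3 F k f) r e E (algebraMap F k κ) (α.map (algebraMap F k)) →
    ((fib f κ α).eval (C b)).eval a = 0 → RegPt (fib f κ α) a b → a₁ ≠ a →
    ((fib f κ α).eval (C b₁)).eval a₁ = 0 → Unr (fib f κ α) a₁ b₁ →
    ((thru F e a b (α.eval a + κ * b)).filter fun s =>
      ¬ Link (bc3 F k f) r e E (algebraMap F k κ) (α.map (algebraMap F k)) (algebraMap F k s.1)
        (s.2.map (algebraMap F k)) (algebraMap F k a) (algebraMap F k b)).card ≤
      c * Fintype.card F ^ e := by
  obtain ⟨c₁, hc₁⟩ := count_bad e r he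
  refine ⟨1 + c₁ + (2 ^ (r * e) * (2 * r) + r + 4), ?_⟩
  intro F k _ _ _ _ _ f d E κ α a b a₁ b₁ hF hf hde hs h0 hreg hne h01 hunr
  set N := 2 ^ (r * e) * (2 * r) + r + 4 with hN
  set φ := algebraMap F k with hφ
  have hφi : Function.Injective φ := φ.injective
  set Q := Fintype.card F with hQ
  -- the curve over `F`
  have hαe : α.natDegree ≤ e := by
    have := hs.deg
    rwa [natDegree_map_eq_of_injective hφi] at this
  have hfdeg : f.natDegree = r := by
    have h1 := hf.deg
    unfold bc3 at h1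
    rwa [natDegree_map_eq_of_injective (map_injective _ (map_injective _ hφi))] at h1
  have hfwt : ∀ i j, (f.coeff j).coeff i ≠ 0 →
      ((f.coeff j).coeff i).natDegree + d * (i + j) ≤ d * r := by
    intro i j hij
    have h1 := hf.wt i j
    unfold bc3 at h1
    rw [coeff_map, coe_mapRingHom, coeff_map, coe_mapRingHom,
      natDegree_map_eq_of_injective hφi] at h1
    exact h1 ((Polynomial.map_ne_zero_iff hφi).2 hij)
  have htop : (fib f κ α).natDegree = r := by
    have h1 := hs.top
    rwa [fib_map, natDegree_map_eq_of_injective (map_injective _ hφi)] at h1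
  obtain ⟨c, hc, hw⟩ := fib_wt hfdeg hf.pos hfwt (by omega) hde.le hαe htop
  set g : F[X][X] := C (C c) * fib f κ α with hg
  have hgirr : Irreducible (g.map (mapRingHom φ)) := by
    have h1 : g.map (mapRingHom φ) = C (C (φ c)) * fib (bc3 F k f) (φ κ) (α.map φ) := by
      rw [fib_map, hg, Polynomial.map_mul, map_C, coe_mapRingHom, map_C]
    rw [h1]
    have hu : IsUnit (C (C (φ c)) : k[X][X]) :=
      isUnit_C.2 (isUnit_C.2 (isUnit_iff_ne_zero.2 ((map_ne_zero φ).2 hc)))
    exact (irreducible_isUnit_mul hu).2 hs.irr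
  have hgeval : ∀ x y : F, evalEval x y g = c * ((fib f κ α).eval (C y)).eval x := by
    intro x y
    rw [hg, evalEval_mul, evalEval_C, eval_C]
  have hgY : ∀ x y : F, fY g x y = c * ((derivative (fib f κ α)).eval (C y)).eval x := by
    intro x y
    unfold fY
    rw [hg, derivative_mul, derivative_C, zero_mul, zero_add, evalEval_mul, evalEval_C, eval_C]
  have hgX : ∀ x y : F, fX g x y = c * (derivative ((fib f κ α).eval (C y))).eval x := by
    intro x y
    unfold fX
    rw [hg, eval_mul, eval_C, derivative_mul, derivative_C, zero_mul, zero_add, eval_mul, eval_C]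
  have hbad := hc₁ F k g a b a₁ b₁ (by omega) hw hgirr (by rw [hgeval, h0, mul_zero])
    (by
      rw [hgX, hgY]
      rcases hreg with h | h
      · exact Or.inr (mul_ne_zero hc h)
      · exact Or.inl (mul_ne_zero hc h)) hne (by rw [hgeval, h01, mul_zero])
    (by rw [hgY]; exact mul_ne_zero hc hunr)
  -- the parametrisation of the curves through `(a, b)`
  let Ψ : F → F[X] → F × F[X] := fun κ' γ => (κ', α + C κ * γ - C κ' * γ)
  let Lk : F × F[X] → Prop := fun s => Link (bc3 F k f) r e E (φ κ) (α.map φ) (φ s.1) (s.2.map φ)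
    (φ a) (φ b)
  let T : Finset F[X] := (pol F (e + 1)).filter fun γ => γ.eval a = b
  let P : F[X] → Prop := fun γ =>
    (g.eval γ).natDegree = e * r ∧ (g.eval γ).Separable ∧ (derivative g).eval γ ≠ 0
  let S0 : Finset (F × F[X]) := ((pol F (e + 1)).filter fun α' =>
    α'.eval a = α.eval a + κ * b - κ * b).image fun α' => (κ, α')
  let S1 : Finset (F × F[X]) := ((univ : Finset F) ×ˢ ((pol F (e + 1)).filter fun γ =>
    γ.eval a = b ∧ ¬ P γ)).image fun p => Ψ p.1 p.2
  let S2 : Finset (F × F[X]) := (T.filter P).biUnion fun γ =>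
    ((univ : Finset F).filter fun κ' => ¬ Lk (Ψ κ' γ)).image fun κ' => Ψ κ' γ
  have hsub : ((thru F e a b (α.eval a + κ * b)).filter fun s => ¬ Lk s) ⊆ S0 ∪ (S1 ∪ S2) := by
    rintro ⟨κ', α'⟩ hs'
    rw [mem_filter] at hs'
    obtain ⟨hth, hnl⟩ := hs'
    unfold thru at hth
    rw [mem_filter, mem_product] at hth
    obtain ⟨⟨-, hα'⟩, hev⟩ := hth
    simp only at hα' hev
    rw [mem_union, mem_union]
    by_cases hκ : κ' = κ
    · left
      subst hκ
      exact mem_image.2 ⟨α', mem_filter.2 ⟨hα', by rw [← hev]; ring⟩, rfl⟩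
    · right
      have hκ0 : κ' - κ ≠ 0 := sub_ne_zero.2 hκ
      set γ : F[X] := C (κ' - κ)⁻¹ * (α - α') with hγ
      have hγd : γ ∈ pol F (e + 1) := by
        rw [CC_mem_pol] at hα' ⊢
        refine (natDegree_C_mul_le _ _).trans ((natDegree_sub_le _ _).trans (max_le hαe hα'))
      have hγa : γ.eval a = b := by
        rw [hγ, eval_mul, eval_C, eval_sub, inv_mul_eq_iff_eq_mul₀ hκ0]
        linear_combination (-1 : F) * hev
      have hΨ : Ψ κ' γ = (κ', α') := by
        refine Prod.ext rfl ?_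
        show α + C κ * γ - C κ' * γ = α'
        have h1 : C (κ' - κ) * γ = α - α' := by
          rw [hγ, ← mul_assoc, ← C_mul, mul_inv_cancel₀ hκ0, C_1, one_mul]
        rw [C_sub] at h1
        linear_combination (-1 : F[X]) * h1
      by_cases hP : P γ
      · right
        refine mem_biUnion.2 ⟨γ, mem_filter.2 ⟨mem_filter.2 ⟨hγd, hγa⟩, hP⟩, ?_⟩
        exact mem_image.2 ⟨κ', mem_filter.2 ⟨mem_univ _, by rw [hΨ]; exact hnl⟩, hΨ⟩
      · left
        exact mem_image.2 ⟨(κ', γ), mem_product.2 ⟨mem_univ _, mem_filter.2 ⟨hγd, hγa, hP⟩⟩, hΨ⟩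
  have hS0 : S0.card ≤ Q ^ e := card_image_le.trans (card_eval a _).le
  have hS1 : S1.card ≤ c₁ * Q ^ e := by
    refine card_image_le.trans ?_
    rw [card_product, card_univ]
    calc Q * ((pol F (e + 1)).filter fun γ => γ.eval a = b ∧ ¬ P γ).card
        ≤ Q * (c₁ * Q ^ (e - 1)) := Nat.mul_le_mul_left _ hbad
      _ = c₁ * Q ^ (e - 1 + 1) := by rw [pow_succ]; ring
      _ = c₁ * Q ^ e := by rw [Nat.sub_add_cancel (by omega)]
  have hS2 : S2.card ≤ N * Q ^ e := by
    have hT : (T.filter P).card ≤ Q ^ e := (card_filter_le _ _).trans (card_eval a b).le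
    refine card_biUnion_le.trans ?_
    have h1 : ∀ γ ∈ T.filter P,
        (((univ : Finset F).filter fun κ' => ¬ Lk (Ψ κ' γ)).image fun κ' => Ψ κ' γ).card ≤ N := by
      intro γ hγ
      rw [mem_filter, mem_filter] at hγ
      obtain ⟨⟨hγd, hγa⟩, h2, h3, h4⟩ := hγ
      obtain ⟨Bad, hB, hlink⟩ := CC_block hr he hc hw hf hde hs (CC_mem_pol.1 hγd) h2 h3 h4 a
      refine card_image_le.trans (le_trans ?_ hB)
      rw [← card_map (⟨φ, hφi⟩ : F ↪ k)]
      refine card_le_card fun x hx => ?_
      obtain ⟨κ', hκ', rfl⟩ := mem_map.1 hx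
      by_contra hnot
      rw [mem_filter] at hκ'
      have h5 := hlink κ' hnot
      rw [hγa] at h5
      exact hκ'.2 h5
    refine (sum_le_sum h1).trans ?_
    rw [sum_const, smul_eq_mul, mul_comm]
    exact Nat.mul_le_mul_left _ hT
  refine (card_le_card hsub).trans ((card_union_le _ _).trans ?_)
  refine (Nat.add_le_add_left (card_union_le _ _) _).trans ?_
  calc S0.card + (S1.card + S2.card) ≤ Q ^ e + (c₁ * Q ^ e + N * Q ^ e) := by omega
    _ = (1 + c₁ + N) * Q ^ e := by ring

end MPb197b4P
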