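import Pool.Agent.Lib.MP_b197b4_ntC.CE
import Pool.Agent.Lib.MP_b197b4_ntE.SJ1

/-!
# Leaf CFA: step A over the closed field
-/

set_option autoImplicit false

noncomputable section

namespace MPb197b4P

open Polynomial

section Transfer

/-- a polynomial of degree at most `n` with `n` different roots -/
theorem split_facts {F : Type} [Field F] [DecidableEq F] {n : ℕ} (hn : 0 < n) {q : F[X]}
    (hd : q.natDegree ≤ n) (hs : MPb197b4E.Split n q) :
    q.natDegree = n ∧ q.Separable ∧ q.roots.card = q.natDegree := by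
  have h1 : q.roots.toFinset.card = n := hs
  have h2 := q.roots.toFinset_card_le
  have h3 := q.card_roots'
  have h0 : q ≠ 0 := by
    intro h0
    rw [h0, roots_zero, Multiset.toFinset_zero, Finset.card_empty] at h1
    omega
  have h4 : q.natDegree = n := by omega
  have h5 : q.roots.card = q.natDegree := by omega
  have h6 : q.roots.Nodup := Multiset.toFinset_card_eq_card_iff_nodup.mp (by omega)
  refine ⟨h4, ?_, h5⟩
  exact (nodup_roots_iff_of_splits h0 (splits_iff_card_roots.mpr h5)).mp h6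

variable {F k : Type} [Field F] [Field k] [Algebra F k]

theorem goodF_iff (f : F[X][X][X]) (r e : ℕ) (E : Set (k × k[X])) (κ : F) (α : F[X]) :
    MPb197b4E.SJ.GoodF k f r e {s | (algebraMap F k s.1, s.2.map (algebraMap F k)) ∈ E} κ α ↔
      Good (f.map (mapRingHom (mapRingHom (algebraMap F k)))) r e E (algebraMap F k κ)
        (α.map (algebraMap F k)) := by
  have hi : Function.Injective (algebraMap F k) := (algebraMap F k).injective
  have hi2 : Function.Injective (mapRingHom (algebraMap F k)) := map_injective _ hi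
  have hf := MPb197b4E.SJ.fib_map (algebraMap F k) f κ α
  have e1 : (fib f κ α).natDegree = (fib (f.map (mapRingHom (mapRingHom (algebraMap F k))))
      (algebraMap F k κ) (α.map (algebraMap F k))).natDegree := by
    rw [← hf, natDegree_map_eq_of_injective hi2]
  have e2 : derivative (fib f κ α) ≠ 0 ↔ derivative (fib (f.map (mapRingHom (mapRingHom
      (algebraMap F k)))) (algebraMap F k κ) (α.map (algebraMap F k))) ≠ 0 := by
    rw [← hf, derivative_map, Polynomial.map_ne_zero_iff hi2]
  constructor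
  · intro h
    refine ⟨?_, ?_, ?_, ?_, ?_⟩
    · rw [natDegree_map_eq_of_injective hi]
      exact h.deg
    · rcases h.lead with h1 | h1
      · left
        rw [coeff_map]
        exact (map_ne_zero_iff _ hi).mpr h1
      · right
        exact h1
    · rw [← hf]
      exact h.irr
    · rw [← e1]
      exact h.top
    · exact e2.mp h.sep
  · intro h
    refine ⟨?_, ?_, ?_, ?_, ?_⟩
    · have h1 := h.deg
      rw [natDegree_map_eq_of_injective hi] at h1
      exact h1
    · rcases h.lead with h1 | h1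
      · left
        rw [coeff_map] at h1
        exact (map_ne_zero_iff _ hi).mp h1
      · right
        exact h1
    · rw [hf]
      exact h.irr
    · rw [e1]
      exact h.top
    · exact e2.mpr h.sep

theorem cut_map (f : F[X][X][X]) (κ : F) (α γ : F[X]) :
    cut (f.map (mapRingHom (mapRingHom (algebraMap F k)))) (algebraMap F k κ)
      (α.map (algebraMap F k)) (γ.map (algebraMap F k)) = (cut f κ α γ).map (algebraMap F k) := by
  have hf := MPb197b4E.SJ.fib_map (algebraMap F k) f κ α
  have h2 := MPb197b4E.eval_map_map (algebraMap F k) (fib f κ α) γ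
  rw [cut, ← hf, h2, cut]

end Transfer

open Classical in
/-- **STEP A** -/
theorem step_a (p : ℕ) [Fact p.Prime] (k : Type) [Field k] [CharP k p] [IsAlgClosed k]
    (halg : ∀ a : k, ∃ m : ℕ, 0 < m ∧ a ^ p ^ m = a) {f : k[X][X][X]} {r d e : ℕ} (hf : Wt f r d)
    (hde : d < e) (he : r + 5 ≤ e) (hs : (e * r - (r + 1)).Prime) {E : Set (k × k[X])}
    {G : k[X] → k[X] → ℚ} {g : k → k[X] → k × k → ℚ}
    (hG : ∀ κ α γ, Good f r e E κ α → Spl f e (r * e) κ α γ →
      G γ (α + C κ * γ) = ∑ a ∈ (cut f κ α γ).roots.toFinset, g κ α (a, γ.eval a))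
    {κ κ' : k} {α α' : k[X]} {a b : k} (h : Good f r e E κ α)
    (hl : Link f r e E κ α κ' α' a b) (h0 : ((fib f κ α).eval (C b)).eval a = 0) :
    g κ α (a, b) = g κ' α' (a, b) := by
  obtain ⟨hκ, h', γ, hγa, hδ, hspl, a₁, a₂, ha, hr1, hr2, u1, u2, v1, v2⟩ := hl
  have hn0 : 0 < e * r := Nat.mul_pos (by omega) (by have := hf.two; omega)
  -- a field of definition
  set R : Finset k := (cut f κ α γ).roots.toFinset with hR
  have hcut0 : cut f κ α γ ≠ 0 := hspl.sep.ne_zero
  have hRmem : ∀ x, x ∈ R ↔ (cut f κ α γ).eval x = 0 := by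
    intro x
    rw [hR, Multiset.mem_toFinset, mem_roots hcut0]
    rfl
  have hcut' : cut f κ' α' γ = cut f κ α γ := by
    rw [cut, cut, MPb197b4E.SJ.fib_eval, MPb197b4E.SJ.fib_eval, hδ]
  set D : k → ℚ := fun x => g κ α (x, γ.eval x) - g κ' α' (x, γ.eval x) with hD
  obtain ⟨Q₁, hQ⟩ := MPb197b4E.SJ.stepF r d e hf.two hf.pos hde he hs
  have hfin : ({c | ∃ i j l, c = ((f.coeff i).coeff j).coeff l} ∪ ({κ, κ'} ∪
      (Set.range (fun i => α.coeff i) ∪ (Set.range (fun i => α'.coeff i) ∪
      (Set.range (fun i => γ.coeff i) ∪ (R : Set k))))) : Set k).Finite := by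
    have hrange : ∀ q : k[X], (Set.range fun i => q.coeff i).Finite := by
      intro q
      refine ((q.support.image q.coeff ∪ {0}).finite_toSet).subset ?_
      rintro _ ⟨i, rfl⟩
      by_cases hi : q.coeff i = 0
      · simp [hi]
      · simp only [Finset.coe_union, Finset.coe_image, Set.mem_union, Set.mem_image,
          Finset.mem_coe]
        exact Or.inl ⟨i, mem_support_iff.mpr hi, rfl⟩
    refine (coeffs_finite f).union (Set.Finite.union (Set.toFinite _) ?_)
    exact (hrange α).union ((hrange α').union ((hrange γ).union R.finite_toSet))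
  obtain ⟨F, iF, iT, iAl, μ, hcard, hbig, hmemF⟩ := exists_field p k halg _ hfin Q₁
  set φ := algebraMap F k with hφ
  have hφi : Function.Injective φ := φ.injective
  obtain ⟨f', hf'⟩ := lift_three (F := F) f fun i j l => hmemF _ (Or.inl ⟨i, j, l, rfl⟩)
  obtain ⟨κF, hκF⟩ := hmemF κ (Or.inr (Or.inl (Or.inl rfl)))
  obtain ⟨κF', hκF'⟩ := hmemF κ' (Or.inr (Or.inl (Or.inr rfl)))
  obtain ⟨αF, hαF⟩ := lift_one (F := F) α fun i =>
    hmemF _ (Or.inr (Or.inr (Or.inl ⟨i, rfl⟩)))
  obtain ⟨αF', hαF'⟩ := lift_one (F := F) α' fun i =>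
    hmemF _ (Or.inr (Or.inr (Or.inr (Or.inl ⟨i, rfl⟩))))
  obtain ⟨γF, hγF⟩ := lift_one (F := F) γ fun i =>
    hmemF _ (Or.inr (Or.inr (Or.inr (Or.inr (Or.inl ⟨i, rfl⟩)))))
  have hroot : ∀ x ∈ R, ∃ y : F, φ y = x := fun x hx =>
    hmemF _ (Or.inr (Or.inr (Or.inr (Or.inr (Or.inr hx)))))
  replace hαF : αF.map φ = α := hαF
  replace hαF' : αF'.map φ = α' := hαF'
  replace hγF : γF.map φ = γ := hγF
  replace hf' : f'.map (mapRingHom (mapRingHom φ)) = f := hf'
  have hcutF : cut f κ α γ = (cut f' κF αF γF).map φ := by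
    rw [← cut_map, ← hφ, hf', hκF, hαF, hγF]
  have hfib : fib f κ α = (fib f' κF αF).map (mapRingHom φ) := by
    rw [MPb197b4E.SJ.fib_map, hf', hκF, hαF]
  have hfib' : fib f κ' α' = (fib f' κF' αF').map (mapRingHom φ) := by
    rw [MPb197b4E.SJ.fib_map, hf', hκF', hαF']
  have hfc : ∀ i j, (f.coeff j).coeff i = ((f'.coeff j).coeff i).map φ := by
    intro i j
    rw [← hf', coeff_map, coe_mapRingHom, coeff_map, coe_mapRingHom]
  have hmon' : f'.Monic := by
    refine monic_of_injective (f := mapRingHom (mapRingHom φ)) ?_ (by rw [hf']; exact hf.monic)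
    exact map_injective _ (map_injective _ hφi)
  have hdeg' : f'.natDegree = r := by
    rw [← hf.deg, ← hf', hmon'.natDegree_map]
  have hwt' : ∀ i j, (f'.coeff j).coeff i ≠ 0 →
      ((f'.coeff j).coeff i).natDegree + d * (i + j) ≤ d * r := by
    intro i j hij
    have h1 := hf.wt i j (by
      rw [hfc]
      exact (Polynomial.map_ne_zero_iff hφi).mpr hij)
    rw [hfc, natDegree_map_eq_of_injective hφi] at h1
    exact h1
  have hg1 : MPb197b4E.SJ.GoodF k f' r e {s | (φ s.1, s.2.map φ) ∈ E} κF αF := by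
    rw [hφ, goodF_iff, ← hφ, hf', hκF, hαF]
    exact h
  have hg2 : MPb197b4E.SJ.GoodF k f' r e {s | (φ s.1, s.2.map φ) ∈ E} κF' αF' := by
    rw [hφ, goodF_iff, ← hφ, hf', hκF', hαF']
    exact h'
  have hW : Bert.Wt3 e r f' := Bert.Wt3_of_wt hf.pos hde.le hwt'
  have hr0 : 0 < r := by have := hf.two; omega
  -- the hypothesis over `F`
  have hyp : ∀ κ α γ, MPb197b4E.SJ.GoodF k f' r e {s | (φ s.1, s.2.map φ) ∈ E} κ α →
      γ.natDegree ≤ e → MPb197b4E.Split (e * r) (cut f' κ α γ) →
      ((G (γ.map φ) ((α + C κ * γ).map φ) : ℚ) : ℝ) =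
        ∑ a ∈ (cut f' κ α γ).roots.toFinset,
          ((g (φ κ) (α.map φ) (φ a, φ (γ.eval a)) : ℚ) : ℝ) := by
    intro κ₁ α₁ γ₁ hg hγ hsp
    have hcd : (cut f' κ₁ α₁ γ₁).natDegree ≤ e * r := by
      have h1 := MPb197b4E.SJ.nfib_wt hdeg' hW hr0 hg.deg hg.top
      have h2 := (MPb197b4E.eval_wt h1 hγ).1
      rw [MPb197b4E.SJ.nfib, eval_mul, eval_C, natDegree_C_mul
        (inv_ne_zero (MPb197b4E.SJ.lead_fib hdeg' hW hr0 hg.top).1)] at h2
      exact h2
    obtain ⟨s1, s2, s3⟩ := split_facts hn0 hcd hsp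
    have hgk := (goodF_iff f' r e E κ₁ α₁).mp (by rw [← hφ]; exact hg)
    rw [← hφ, hf'] at hgk
    have hck : cut f (φ κ₁) (α₁.map φ) (γ₁.map φ) = (cut f' κ₁ α₁ γ₁).map φ := by
      rw [← cut_map, ← hφ, hf']
    have hsk : Spl f e (r * e) (φ κ₁) (α₁.map φ) (γ₁.map φ) := by
      refine ⟨?_, ?_, ?_⟩
      · rw [natDegree_map_eq_of_injective hφi]
        exact hγ
      · rw [hck, natDegree_map_eq_of_injective hφi, s1, mul_comm]
      · rw [hck]
        exact s2.map
    have h1 := hG (φ κ₁) (α₁.map φ) (γ₁.map φ) hgk hsk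
    have h2 : (α₁ + C κ₁ * γ₁).map φ = α₁.map φ + C (φ κ₁) * γ₁.map φ := by
      rw [Polynomial.map_add, Polynomial.map_mul, map_C]
    rw [h2, h1, hck, ← roots_map_of_injective_of_card_eq_natDegree hφi s3, Rat.cast_sum]
    rw [show (Multiset.map φ (cut f' κ₁ α₁ γ₁).roots).toFinset =
      (cut f' κ₁ α₁ γ₁).roots.toFinset.image φ from Multiset.toFinset_map _ _]
    rw [Finset.sum_image fun x _ y _ hxy => hφi hxy]
    refine Finset.sum_congr rfl fun x _ => ?_
    rw [eval_map_algebraMap, aeval_algebraMap_apply, coe_aeval_eq_eval]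
  -- the split block over `F`
  have hspF : MPb197b4E.Split (e * r) (cut f' κF αF γF) := by
    have hcF0 : cut f' κF αF γF ≠ 0 := by
      intro h1
      rw [hcutF, h1, Polynomial.map_zero] at hcut0
      exact hcut0 rfl
    have h1 : R = (cut f' κF αF γF).roots.toFinset.image φ := by
      ext x
      rw [Finset.mem_image]
      constructor
      · intro hx
        obtain ⟨y, rfl⟩ := hroot x hx
        refine ⟨y, ?_, rfl⟩
        rw [hRmem, hcutF, eval_map_algebraMap, aeval_algebraMap_apply, coe_aeval_eq_eval] at hx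
        rw [Multiset.mem_toFinset, mem_roots hcF0, IsRoot.def]
        exact (map_eq_zero_iff φ hφi).mp hx
      · rintro ⟨y, hy, rfl⟩
        rw [Multiset.mem_toFinset, mem_roots hcF0, IsRoot.def] at hy
        rw [hRmem, hcutF, eval_map_algebraMap, aeval_algebraMap_apply, coe_aeval_eq_eval, hy,
          map_zero]
    have h2 : R.card = e * r := by
      rw [hR, Multiset.toFinset_card_of_nodup (nodup_roots hspl.sep)]
      have h3 := IsAlgClosed.card_roots_eq_natDegree (p := cut f κ α γ)
      rw [h3, hspl.num, mul_comm]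
    show (cut f' κF αF γF).roots.toFinset.card = e * r
    rw [← h2, h1, Finset.card_image_of_injective _ hφi]
  have hγe : γF.natDegree ≤ e := by
    have h1 := hspl.deg
    rw [← hγF, natDegree_map_eq_of_injective hφi] at h1
    exact h1
  have hδF : αF + C κF * γF = αF' + C κF' * γF := by
    refine map_injective φ hφi ?_
    rw [Polynomial.map_add, Polynomial.map_add, Polynomial.map_mul, Polynomial.map_mul, map_C,
      map_C, hαF, hκF, hγF, hαF', hκF']
    exact hδ
  have hevF : ∀ x : F, (cut f κ α γ).eval (φ x) = φ ((cut f' κF αF γF).eval x) := by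
    intro x
    rw [hcutF, eval_map_algebraMap, aeval_algebraMap_apply, coe_aeval_eq_eval]
  have hγev : ∀ x : F, γ.eval (φ x) = φ (γF.eval x) := by
    intro x
    rw [← hγF, eval_map_algebraMap, aeval_algebraMap_apply, coe_aeval_eq_eval]
  have hcur : ∀ (w : F[X][X]) (x : F), Unr (w.map (mapRingHom φ)) (φ x) (γ.eval (φ x)) →
      MPb197b4E.fY w x (γF.eval x) ≠ 0 := by
    intro w x hw h1
    refine hw ?_
    rw [MPb197b4E.fY, evalEval] at h1
    rw [derivative_map, hγev]
    have h2 := MPb197b4E.eval_map_map φ (derivative w) (C (γF.eval x))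
    rw [map_C] at h2
    rw [h2, eval_map_algebraMap, aeval_algebraMap_apply, coe_aeval_eq_eval, h1, map_zero]
  -- the differences
  have key : ∀ u x y : k, (cut f κ α γ).eval u = 0 → (cut f κ α γ).eval x = 0 →
      (cut f κ α γ).eval y = 0 → x ≠ u → y ≠ u → Unr (fib f κ α) u (γ.eval u) →
      Unr (fib f κ' α') u (γ.eval u) → D x = D y := by
    intro u x y hu hx hy hxu hyu w1 w2
    obtain ⟨u, rfl⟩ := hroot u ((hRmem u).mpr hu)
    obtain ⟨x, rfl⟩ := hroot x ((hRmem x).mpr hx)
    obtain ⟨y, rfl⟩ := hroot y ((hRmem y).mpr hy)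
    rw [hevF] at hu hx hy
    rw [hfib] at w1
    rw [hfib'] at w2
    have h1 := @hQ p μ _ F k _ _ (Classical.decEq F) _ _ _ _ hcard hbig f' hmon' hdeg' hwt'
      (by rw [hf']; exact hf.irr) {s | (φ s.1, s.2.map φ) ∈ E}
      (fun γ δ => ((G (γ.map φ) (δ.map φ) : ℚ) : ℝ))
      (fun κ α q => ((g (φ κ) (α.map φ) (φ q.1, φ q.2) : ℚ) : ℝ)) ?_ κF αF κF' αF' γF hg1 hg2
      hδF hγe ?_ u x y ((map_eq_zero_iff φ hφi).mp hu) ((map_eq_zero_iff φ hφi).mp hx)
      ((map_eq_zero_iff φ hφi).mp hy) (fun h => hxu (by rw [h])) (fun h => hyu (by rw [h]))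
      (hcur _ u w1) (hcur _ u w2)
    · simp only [hκF, hκF', hαF, hαF', ← hγev] at h1
      simp only [hD]
      exact_mod_cast h1
    · intro κ α γ hg hγ hsp
      have h2 := hyp κ α γ hg hγ ?_
      · refine h2.trans ?_
        refine Finset.sum_congr ?_ fun _ _ => rfl
        ext z
        rw [Multiset.mem_toFinset]
      · show (cut f' κ α γ).roots.toFinset.card = e * r
        have h3 : @MPb197b4E.Split F _ (Classical.decEq F) (e * r) (cut f' κ α γ) := hsp
        refine Eq.trans ?_ h3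
        refine congrArg Finset.card ?_
        ext z
        rw [Multiset.mem_toFinset]
    · refine Eq.trans ?_ hspF
      refine congrArg Finset.card ?_
      ext z
      rw [Multiset.mem_toFinset]
  -- the third point and the sum
  have hRcard : R.card = e * r := by
    rw [hR, Multiset.toFinset_card_of_nodup (nodup_roots hspl.sep),
      IsAlgClosed.card_roots_eq_natDegree (p := cut f κ α γ), hspl.num, mul_comm]
  obtain ⟨z, hz, hz1, hz2⟩ : ∃ z ∈ R, z ≠ a₁ ∧ z ≠ a₂ := by
    by_contra hcon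
    push Not at hcon
    have h1 : R ⊆ {a₁, a₂} := by
      intro x hx
      rw [Finset.mem_insert, Finset.mem_singleton]
      by_cases hx1 : x = a₁
      · exact Or.inl hx1
      · exact Or.inr (hcon x hx hx1)
    have h2 := (Finset.card_le_card h1).trans Finset.card_le_two
    have h3 : 7 * 2 ≤ e * r := Nat.mul_le_mul (by have := hf.two; omega) hf.two
    omega
  have hconst : ∀ x ∈ R, D x = D z := by
    intro x hx
    by_cases hx1 : x = a₁
    · rw [hx1]
      exact key a₂ a₁ z hr2 hr1 ((hRmem z).mp hz) ha hz2 u2 v2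
    · exact key a₁ x z hr1 ((hRmem x).mp hx) ((hRmem z).mp hz) hx1 hz1 u1 v1
  have hsum : ∑ x ∈ R, D x = 0 := by
    have e1 := hG κ α γ h hspl
    have e2 := hG κ' α' γ h' ⟨hspl.deg, by rw [hcut']; exact hspl.num,
      by rw [hcut']; exact hspl.sep⟩
    rw [hcut', ← hδ] at e2
    rw [hD, Finset.sum_sub_distrib, ← e1, ← e2, sub_self]
  rw [Finset.sum_congr rfl hconst, Finset.sum_const, hRcard, nsmul_eq_mul] at hsum
  have hz0 : D z = 0 := by
    rcases mul_eq_zero.mp hsum with h1 | h1
    · exact absurd (Nat.cast_eq_zero.mp h1) hn0.ne'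
    · exact h1
  have haR : a ∈ R := by
    rw [hRmem, cut, MPb197b4E.eval_eval_eq, hγa]
    exact h0
  have h1 := hconst a haR
  rw [hz0, hD] at h1
  simp only [hγa] at h1
  exact sub_eq_zero.mp h1

end MPb197b4P
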